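import Pool.Agent.P.MP_07c576_gt.Ql.Glob

/-! Check: a Busemann convex ball of a G-space satisfies the lower condition. Not a hand-in. -/

namespace Pool.Agent.P.MP_07c576_gt.Ql

open Set Metric Topology Filter

variable {X : Type} [MetricSpace X] [ProperSpace X]

theorem Loc.low_of_convex {o : X} {R : ℝ} (L : Loc o R)
    (h : ∀ x ∈ ball o R, ∀ y ∈ ball o R, ∀ z ∈ ball o R, ∀ (t : ℝ) (p q : X),
      Div x y t p → Div x z t q → dist p q ≤ t * dist y z) {δ : ℝ} (hδ : 0 < δ) :
    ∃ c : ℝ, 0 < c ∧ ∀ x ∈ ball o (R / 4), ∀ y ∈ ball o (R / 4), ∀ z ∈ ball o (R / 4),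
      ∀ (t : ℝ) (p q : X), Div x y t p → Div x z t q → δ ≤ dist y z → c * t ≤ dist p q := by
  have hR := L.pos
  set K : Set (X × X × X × X) := (closedBall o R ×ˢ closedBall o R ×ˢ closedBall o R ×ˢ
    closedBall o R) ∩ {w | dist w.1 w.2.1 = R / 4 ∧
      dist w.1 w.2.1 + dist w.2.1 w.2.2.1 = dist w.1 w.2.2.1 ∧ δ ≤ dist w.2.2.1 w.2.2.2} with hK
  have hc : IsCompact K := ((isCompact_closedBall o R).prod ((isCompact_closedBall o R).prod
    ((isCompact_closedBall o R).prod (isCompact_closedBall o R)))).inter_right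
    ((isClosed_eq (by fun_prop) (by fun_prop)).inter
      ((isClosed_eq (by fun_prop) (by fun_prop)).inter 
        (isClosed_le (g := fun w : X × X × X × X => dist w.2.2.1 w.2.2.2) continuous_const
          (by fun_prop))))
  obtain ⟨c, c0, hc⟩ := hc.exists_forall_le' (f := fun w : X × X × X × X =>
    dist w.1 w.2.1 + dist w.2.1 w.2.2.2 - dist w.1 w.2.2.2 +
      |dist w.2.1 w.2.2.1 - dist w.2.1 w.2.2.2|) (by fun_prop) (a := 0) (by
    rintro ⟨b, x, y, z⟩ ⟨-, e1, e2, e3⟩
    have t1 := dist_triangle b x z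
    have t2 := abs_nonneg (dist x y - dist x z)
    refine lt_of_le_of_ne (by dsimp only; linarith) fun e => ?_
    dsimp only at e e1 e2 e3
    have := L.uniq b x y z (dist_pos.1 (by linarith)) e2 (by linarith)
      (sub_eq_zero.1 (abs_eq_zero.1 (by linarith)))
    rw [this, dist_self] at e3
    linarith)
  refine ⟨min (c / 3) δ, lt_min (by linarith) hδ, fun x hx y hy z hz t p q hp hq hd => ?_⟩
  have m : ball o (R / 4) ⊆ ball o R := ball_subset_ball (by linarith)
  by_cases hxy : y = x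
  · subst hxy
    obtain ⟨t0, -, a, -⟩ := hp
    rw [dist_self, mul_zero, dist_eq_zero] at a
    rw [← a, hq.2.2.1, mul_comm]
    exact mul_le_mul_of_nonneg_left ((min_le_right _ _).trans hd) t0
  obtain ⟨b, b1, b2⟩ := L.long (m hy) (m hx) hxy (t := R / 4) (by linarith) (by linarith)
  have hb : b ∈ ball o R := mem_ball.2 (by linarith [dist_triangle_left b o x, mem_ball.1 hx])
  have k := hc (b, x, y, z) ⟨⟨ball_subset_closedBall hb, ball_subset_closedBall (m hx),
    ball_subset_closedBall (m hy), ball_subset_closedBall (m hz)⟩, by rwa [dist_comm],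
    by dsimp only; linarith [dist_comm b x, dist_comm x y, dist_comm b y], hd⟩
  dsimp only at k
  have hb' := L.div (m hx) hb hp.1 hp.2.1
  have k1 := h x (m hx) b hb z (m hz) t _ _ hb' hq
  obtain ⟨t0, t1, a1, a2⟩ := hp
  have k2 := dist_triangle4 y p (geo x b t) b
  have k3 := dist_triangle_right p (geo x b t) q
  have k4 := abs_dist_sub_le p q x
  rw [dist_comm p x, dist_comm q x, a1, hq.2.2.1, ← mul_sub, abs_mul, abs_of_nonneg t0] at k4
  have k5 := mul_le_mul_of_nonneg_left k t0
  have k6 := mul_le_mul_of_nonneg_left (neg_abs_le (dist x y - dist x z)) t0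
  have k7 := mul_le_mul_of_nonneg_right (min_le_left (c / 3) δ) t0
  rw [dist_comm y p, a2, hb'.2.2.2, ← b2, dist_comm y x] at k2
  rw [dist_comm b x] at k5
  linarith

end Pool.Agent.P.MP_07c576_gt.Ql
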