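import Mathlib

namespace Pool.Agent.P.MP_07c576_gt.Ql

/-- `p` is the point at the fraction `t` of a shortest path from `x` to `y`. -/
def Div {X : Type} [MetricSpace X] (x y : X) (t : ℝ) (p : X) : Prop :=
  0 ≤ t ∧ t ≤ 1 ∧ dist x p = t * dist x y ∧ dist p y = (1 - t) * dist x y

end Pool.Agent.P.MP_07c576_gt.Ql
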