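import Mathlib

/-! Differentiation of Lipschitz functions along almost Lipschitz flows in a doubling space,
without a measure. -/

namespace Pool.Agent.P.MP_07c576_gt.Ql

open Set Metric Topology Filter

variable {X : Type} [MetricSpace X]

/-- A local flow near `o` of speed at most one that is almost `C`-Lipschitz close to `o`. -/
structure Flow (o : X) (R C : ℝ) (φ : ℝ → X → X) : Prop where
  add : ∀ p ∈ ball o R, ∀ s s', |s| ≤ R → |s'| ≤ R → φ s' (φ s p) = φ (s + s') p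
  dist_le : ∀ p ∈ ball o R, ∀ s, |s| ≤ R → dist (φ s p) p ≤ |s|
  lip : ∀ η > 0, ∃ ρ > 0, ∀ p ∈ ball o ρ, ∀ q ∈ ball o ρ, ∀ s, |s| ≤ ρ →
    dist (φ s p) (φ s q) ≤ C * dist p q + η * |s|

/-- Small balls near `o` have nets whose size depends only on the relative mesh. -/
def Dbl (o : X) (R : ℝ) : Prop := ∀ κ > 0, ∃ N : ℕ, ∀ x ∈ ball o R, ∀ r, 0 < r → r ≤ R →
  ∃ S : Finset X, S.card ≤ N ∧ (∀ q ∈ S, dist q x ≤ 3 * r) ∧
    ∀ p, dist p x ≤ r → ∃ q ∈ S, dist p q ≤ κ * r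

/-- `f` is almost linear along the flow on the ball of radius `M t` about `x`. -/
def Good (φ : ℝ → X → X) (f : X → ℝ) (x : X) (t M ε : ℝ) : Prop :=
  ∃ a : ℝ, ∀ p, dist p x ≤ M * t → ∀ s, 0 ≤ s → s ≤ M * t → |f (φ s p) - f p - a * s| ≤ ε * t

theorem Good.mono {φ : ℝ → X → X} {f : X → ℝ} {x x' : X} {t M ε t' M' ε' : ℝ}
    (h : Good φ f x t M ε) (h1 : ε * t ≤ ε' * t') (h2 : dist x' x + M' * t' ≤ M * t) :
    Good φ f x' t' M' ε' := by
  obtain ⟨a, ha⟩ := h
  refine ⟨a, fun p hp s h0 hs => (ha p ?_ s h0 ?_).trans h1⟩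
  · linarith [dist_triangle p x' x]
  · linarith [dist_nonneg (x := x') (y := x)]

theorem stop (o : X) (R : ℝ) (sl : X → ℝ → ℝ) {lam δ : ℝ} (h0 : 0 < lam) (h1 : lam ≤ 1)
    (hb : ∀ y ∈ ball o R, ∀ s, 0 < s → s ≤ R → sl y s ≤ 1) (J : ℕ) :
    ∀ y ρ, 0 < ρ → ρ ≤ R → dist y o + 2 * J * ρ < R → 1 - J * δ < sl y ρ →
      ∃ y' ρ', dist y' y ≤ 2 * J * ρ ∧ lam ^ J * ρ ≤ ρ' ∧ ρ' ≤ ρ ∧
        ∀ p s, dist p y' ≤ 2 * ρ' → lam * ρ' ≤ s → s ≤ ρ' → sl p s ≤ sl y' ρ' + δ := by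
  induction J with
  | zero =>
    intro y ρ a b c d
    have := hb y (by simpa using c) ρ a b
    simp at d
    linarith
  | succ J ih =>
    intro y ρ a b c d
    push_cast at c d ⊢
    by_cases h : ∀ p s, dist p y ≤ 2 * ρ → lam * ρ ≤ s → s ≤ ρ → sl p s ≤ sl y ρ + δ
    · exact ⟨y, ρ, by rw [dist_self]; positivity,
        mul_le_of_le_one_left a.le (pow_le_one₀ h0.le h1), le_rfl, h⟩
    push Not at h
    obtain ⟨p, s, e1, e2, e3, e4⟩ := h
    have hs : 0 < s := lt_of_lt_of_le (by positivity) e2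
    have hJ : (J : ℝ) * s ≤ J * ρ := mul_le_mul_of_nonneg_left e3 (by positivity)
    obtain ⟨y', ρ', f1, f2, f3, f4⟩ := ih p s hs (e3.trans b)
      (by linarith [dist_triangle p y o]) (by linarith)
    refine ⟨y', ρ', by linarith [dist_triangle y' p y], le_trans ?_ f2, f3.trans e3, f4⟩
    rw [pow_succ, mul_assoc]
    exact mul_le_mul_of_nonneg_left e2 (by positivity)

/-- The core estimate next to a segment whose slope is almost maximal. -/
theorem core {o : X} {R C : ℝ} {φ : ℝ → X → X} (hφ : Flow o R C φ) {f : X → ℝ}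
    (hf : ∀ p q, |f p - f q| ≤ dist p q) (hC : 1 ≤ C) {y : X} {l e m a b : ℝ} {K : ℕ}
    (hl : 0 < l) (hK : 3 * (C + 1) ≤ K) (hR : dist y o + 2 * (K * l) < R) (hel : e ≤ l)
    (hlip : ∀ p q, dist p y ≤ 2 * (K * l) → dist q y ≤ 2 * (K * l) → ∀ s, |s| ≤ K * l →
      dist (φ s p) (φ s q) ≤ C * dist p q + e)
    (hm0 : 0 < m) (hml : m ≤ l) (ha : -1 ≤ a)
    (hup : ∀ p s, dist p y ≤ 2 * (K * l) → m ≤ s → s ≤ K * l → f (φ s p) - f p ≤ a * s)
    (hlo : a * (K * l) - b ≤ f (φ (K * l) y) - f y)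
    (S : Finset X) (hS : ∀ q ∈ S, dist q y ≤ 3 * ((C + 1) * l)) {w : ℝ}
    (hnet : ∀ p, dist p y ≤ (C + 1) * l → ∃ q ∈ S, dist p q ≤ w) :
    ∃ x, dist x y + l ≤ K * l ∧ ∀ p, dist p x ≤ l → ∀ s, 0 ≤ s → s ≤ l →
      |f (φ s p) - f p - a * s| ≤
        S.card * (b + (3 * (C + 1) ^ 2 + 1) * l) / K + 2 * m + 2 * (C * w + e) := by
  have hK0 : (0 : ℝ) < K := by linarith
  have hlK : 3 * ((C + 1) * l) ≤ K * l := by nlinarith
  have hl1 : l ≤ K * l := by nlinarith
  have hy : 0 ≤ dist y o := dist_nonneg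
  have hb : ∀ p, dist p y ≤ 2 * (K * l) → p ∈ ball o R := fun p hp => by
    rw [mem_ball]; linarith [dist_triangle p y o]
  have hmv : ∀ p u, dist p y ≤ K * l → |u| ≤ K * l → dist (φ u p) y ≤ 2 * (K * l) :=
    fun p u h1 h2 => by
      linarith [dist_triangle (φ u p) p y, hφ.dist_le p (hb p (by linarith)) u (by linarith)]
  have hadd : ∀ p u u', dist p y ≤ 2 * (K * l) → |u| ≤ K * l → |u'| ≤ K * l →
      φ u' (φ u p) = φ (u + u') p := fun p u u' h1 h2 h3 =>
    hφ.add p (hb p h1) u u' (by linarith) (by linarith)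
  have hz : ∀ p, dist p y ≤ 2 * (K * l) → φ 0 p = p := fun p hp => by
    have := hφ.dist_le p (hb p hp) 0 (by rw [abs_zero]; linarith)
    rwa [abs_zero, dist_le_zero] at this
  have hup' : ∀ p s, dist p y ≤ 2 * (K * l) → 0 ≤ s → s ≤ K * l →
      f (φ s p) - f p ≤ a * s + 2 * m := fun p s h1 h2 h3 => by
    rcases le_total m s with h | h
    · linarith [hup p s h1 h h3]
    · have e1 := hφ.dist_le p (hb p h1) s (by rw [abs_of_nonneg h2]; linarith)
      rw [abs_of_nonneg h2] at e1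
      have e2 := (abs_le.1 (hf (φ s p) p)).2
      nlinarith
  have hk : ∀ k : ℕ, k < K → 0 ≤ (k : ℝ) * l ∧ k * l + l ≤ K * l := fun k h => by
    have : (k : ℝ) + 1 ≤ K := by exact_mod_cast h
    exact ⟨by positivity, by nlinarith⟩
  set inc : X → ℕ → ℝ := fun q k =>
    a * l - (f (φ (((k + 1 : ℕ) : ℝ) * l) q) - f (φ ((k : ℝ) * l) q)) with hinc
  have inc0 : ∀ q ∈ S, ∀ k < K, 0 ≤ inc q k := fun q hq k h => by
    obtain ⟨k0, k1⟩ := hk k h
    have a1 : |(k : ℝ) * l| ≤ K * l := by rw [abs_of_nonneg k0]; linarith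
    have := hup (φ (k * l) q) l (hmv q _ ((hS q hq).trans hlK) a1) hml hl1
    rw [hadd q _ _ (by linarith [hS q hq]) a1 (by rwa [abs_of_pos hl])] at this
    simp only [hinc]
    rw [show ((k + 1 : ℕ) : ℝ) * l = k * l + l by push_cast; ring]
    linarith
  have incs : ∀ q ∈ S, ∑ k ∈ Finset.range K, inc q k ≤ b + (3 * (C + 1) ^ 2 + 1) * l :=
    fun q hq => by
      have d1 := hS q hq
      simp only [hinc]
      rw [Finset.sum_sub_distrib, Finset.sum_range_sub (fun k : ℕ => f (φ ((k : ℝ) * l) q))]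
      simp only [Finset.sum_const, Finset.card_range, nsmul_eq_mul, Nat.cast_zero, zero_mul]
      rw [hz q (by linarith)]
      have e1 := hlip q y (by linarith) (by rw [dist_self]; positivity) (K * l)
        (by rw [abs_of_pos (by positivity)])
      have e2 := (abs_le.1 (hf (φ (K * l) q) (φ (K * l) y))).1
      have e3 := (abs_le.1 (hf q y)).2
      have e4 : C * dist q y ≤ C * (3 * ((C + 1) * l)) :=
        mul_le_mul_of_nonneg_left d1 (by linarith)
      nlinarith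
  obtain ⟨k, hkK, hks⟩ : ∃ k ∈ Finset.range K, ∑ q ∈ S, inc q k ≤
      S.card * (b + (3 * (C + 1) ^ 2 + 1) * l) / K := by
    refine Finset.exists_le_of_sum_le ⟨0, Finset.mem_range.2 (by exact_mod_cast hK0)⟩ ?_
    rw [Finset.sum_comm, Finset.sum_const, Finset.card_range, nsmul_eq_mul,
      mul_div_cancel₀ _ hK0.ne']
    refine (Finset.sum_le_sum incs).trans ?_
    rw [Finset.sum_const, nsmul_eq_mul]
  rw [Finset.mem_range] at hkK
  obtain ⟨k0, k1⟩ := hk k hkK
  have a1 : |(k : ℝ) * l| ≤ K * l := by rw [abs_of_nonneg k0]; linarith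
  have a2 : |-((k : ℝ) * l)| ≤ K * l := by rwa [abs_neg]
  have y0 : dist y y ≤ 2 * (K * l) := by rw [dist_self]; positivity
  have dx : dist (φ (k * l) y) y ≤ k * l := by
    have := hφ.dist_le y (hb y y0) (k * l) (by linarith)
    rwa [abs_of_nonneg k0] at this
  refine ⟨φ (k * l) y, by linarith, fun p hp s s0 s1 => ?_⟩
  have dp : dist p y ≤ 2 * (K * l) := by linarith [dist_triangle p (φ (k * l) y) y]
  have d1 : dist (φ (-(k * l)) p) y ≤ (C + 1) * l := by
    have := hlip p (φ (k * l) y) dp (by linarith) _ a2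
    rw [hadd y _ _ y0 a1 a2, add_neg_cancel, hz y y0] at this
    nlinarith
  obtain ⟨q, hq, d2⟩ := hnet _ d1
  have d3 := hS q hq
  have d4 : C * dist (φ (-(k * l)) p) q ≤ C * w := mul_le_mul_of_nonneg_left d2 (by linarith)
  have a3 : |(k : ℝ) * l + s| ≤ K * l := by rw [abs_of_nonneg (by linarith)]; linarith
  have a4 : |s| ≤ K * l := by rw [abs_of_nonneg s0]; linarith
  have a5 : |l - s| ≤ K * l := by rw [abs_of_nonneg (by linarith)]; linarith
  have c1 := hlip _ q (d1.trans (by nlinarith)) (by linarith) _ a1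
  have c2 := hlip _ q (d1.trans (by nlinarith)) (by linarith) _ a3
  rw [hadd p _ _ dp a2 a1, neg_add_cancel, hz p dp] at c1
  rw [hadd p _ _ dp a2 a3, neg_add_cancel_left] at c2
  have u1 := hup' (φ (k * l) q) s (hmv q _ (by linarith) a1) s0 (by linarith)
  have u2 := hup' (φ (k * l + s) q) (l - s) (hmv q _ (by linarith) a3) (by linarith) (by linarith)
  rw [hadd q _ _ (by linarith) a1 a4] at u1
  rw [hadd q _ _ (by linarith) a3 a5] at u2
  have u3 := (Finset.single_le_sum (f := fun q => inc q k) (fun q hq => inc0 q hq k hkK) hq).trans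
    hks
  have u4 := inc0 q hq k hkK
  simp only [hinc] at u3 u4
  rw [show ((k + 1 : ℕ) : ℝ) * l = k * l + s + (l - s) by push_cast; ring] at u3 u4
  have v1 := abs_le.1 (hf p (φ (k * l) q))
  have v2 := abs_le.1 (hf (φ s p) (φ (k * l + s) q))
  rw [abs_le]
  constructor <;> linarith [v1.1, v1.2, v2.1, v2.2]

theorem single {o : X} {R C : ℝ} {φ : ℝ → X → X} (hφ : Flow o R C φ) {f : X → ℝ}
    (hf : ∀ p q, |f p - f q| ≤ dist p q) (hC : 1 ≤ C) (hR : 0 < R) (hD : Dbl o R) {M ε : ℝ}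
    (hM : 1 ≤ M) (hε : 0 < ε) :
    ∃ Λ ρ₀ : ℝ, 0 < ρ₀ ∧ ∀ x₀ T, 0 < T → dist x₀ o + T ≤ ρ₀ →
      ∃ x t, 0 < t ∧ T ≤ Λ * t ∧ dist x x₀ + M * t ≤ T ∧ Good φ f x t M ε := by
  obtain ⟨N, hN⟩ := hD (ε / (8 * C * (C + 1) * M)) (by positivity)
  set A := 3 * (C + 1) ^ 2 + 1 with hA
  have hA0 : 0 < A := by positivity
  set δ := ε / (16 * (N + 1) * M) with hδ
  have hδ0 : 0 < δ := by positivity
  obtain ⟨K, hK⟩ := exists_nat_ge (max (3 * (C + 1)) (16 * (N + 1) * A * M / ε))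
  have hK1 : 3 * (C + 1) ≤ K := (le_max_left _ _).trans hK
  have hK2 : 16 * (N + 1) * A * M ≤ K * ε := by
    have := (le_max_right _ _).trans hK
    rwa [div_le_iff₀ hε] at this
  have hK0 : (0 : ℝ) < K := by linarith
  set μ := min 1 (ε / (16 * M)) with hμ
  have hμ0 : 0 < μ := lt_min one_pos (by positivity)
  have hμ1 : μ ≤ 1 := min_le_left _ _
  have hμ2 : μ * (16 * M) ≤ ε := by
    have := min_le_right 1 (ε / (16 * M))
    rwa [le_div_iff₀ (by positivity)] at this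
  obtain ⟨J, hJ⟩ := exists_nat_gt (2 / δ)
  rw [div_lt_iff₀ hδ0] at hJ
  obtain ⟨ρL, hρL, hL⟩ := hφ.lip (μ / K) (by positivity)
  have hlam : μ / K ≤ 1 := by rw [div_le_one hK0]; linarith
  refine ⟨(2 * J + 4) * K * M / (μ / K) ^ J, min R ρL, lt_min hR hρL, fun x₀ T hT hx => ?_⟩
  have r1 := hx.trans (min_le_left _ _)
  have r2 := hx.trans (min_le_right _ _)
  obtain ⟨ρ₁, hρ₁, rfl⟩ : ∃ ρ₁ : ℝ, 0 < ρ₁ ∧ T = (2 * J + 4) * ρ₁ :=
    ⟨T / (2 * J + 4), by positivity, by field_simp⟩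
  have hJρ : 0 ≤ (J : ℝ) * ρ₁ := by positivity
  have hx0 : 0 ≤ dist x₀ o := dist_nonneg
  have sl : ∀ y ∈ ball o R, ∀ s, 0 < s → s ≤ R → |(f (φ s y) - f y) / s| ≤ 1 :=
    fun y hy s s0 s1 => by
      have := hφ.dist_le y hy s (by rwa [abs_of_pos s0])
      rw [abs_of_pos s0] at this
      rw [abs_div, abs_of_pos s0, div_le_one s0]
      exact (hf _ _).trans this
  obtain ⟨y, ρ, y1, y2, y3, y4⟩ := stop o R (fun y s => (f (φ s y) - f y) / s) (δ := δ)
    (show 0 < μ / K by positivity) hlam (fun y hy s a b => (abs_le.1 (sl y hy s a b)).2) J x₀ ρ₁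
    hρ₁ (by linarith) (by linarith) (by
      have := (abs_le.1 (sl x₀ (mem_ball.2 (by linarith)) ρ₁ hρ₁ (by linarith))).1
      linarith)
  have hρ : 0 < ρ := lt_of_lt_of_le (by positivity) y2
  obtain ⟨t, ht, rfl⟩ : ∃ t : ℝ, 0 < t ∧ ρ = K * (M * t) :=
    ⟨ρ / (K * M), by positivity, by field_simp⟩
  have hl : 0 < M * t := by positivity
  have dy : dist y o ≤ dist x₀ o + 2 * J * ρ₁ := by linarith [dist_triangle y x₀ o]
  have hyb : y ∈ ball o R := mem_ball.2 (by linarith)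
  have hlK : (C + 1) * (M * t) ≤ K * (M * t) :=
    mul_le_mul_of_nonneg_right (by linarith) hl.le
  obtain ⟨S, S1, S2, S3⟩ := hN y hyb ((C + 1) * (M * t)) (by positivity) (by linarith)
  have em : μ / K * (K * (M * t)) = μ * (M * t) := by field_simp
  have s1 := sl y hyb _ hρ (by linarith)
  obtain ⟨x, x1, x2⟩ := core hφ hf hC (y := y) (e := μ * (M * t)) (m := μ * (M * t))
    (a := (f (φ (K * (M * t)) y) - f y) / (K * (M * t)) + δ) (b := δ * (K * (M * t))) hl hK1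
    (by linarith) (mul_le_of_le_one_left hl.le hμ1)
    (fun p q hp hq s hs => by
      have := hL p (mem_ball.2 (by linarith [dist_triangle p y o]))
        q (mem_ball.2 (by linarith [dist_triangle q y o])) s (by linarith)
      have := mul_le_mul_of_nonneg_left hs (show 0 ≤ μ / K by positivity)
      linarith)
    (by positivity) (mul_le_of_le_one_left hl.le hμ1) (by linarith [(abs_le.1 s1).1])
    (fun p s hp a b => by
      have s0 : 0 < s := lt_of_lt_of_le (by positivity) a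
      have := y4 p s hp (em ▸ a) b
      rwa [div_le_iff₀ s0] at this)
    (by rw [add_mul, div_mul_cancel₀ _ hρ.ne']; linarith) S S2 S3
  refine ⟨x, t, ht, ?_, by linarith [dist_triangle x y x₀], _, fun p hp s a b =>
    (x2 p hp s a b).trans ?_⟩
  · rw [div_mul_eq_mul_div, le_div_iff₀ (by positivity)]
    have := mul_le_mul_of_nonneg_left y2 (show (0 : ℝ) ≤ 2 * J + 4 by positivity)
    linarith
  · have c1 : (S.card : ℝ) ≤ N + 1 := by
      have : (S.card : ℝ) ≤ N := by exact_mod_cast S1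
      linarith
    have c2 : C * (ε / (8 * C * (C + 1) * M) * ((C + 1) * (M * t))) = ε * t / 8 := by
      field_simp
    have c3 : μ * (M * t) ≤ ε * t / 16 := by
      linarith only [mul_le_mul_of_nonneg_right hμ2 ht.le]
    have c4 : (S.card : ℝ) * (δ * (K * (M * t)) + A * (M * t)) / K ≤ ε * t / 8 := by
      rw [div_le_iff₀ hK0]
      have e1 : (N + 1) * (δ * (K * (M * t))) = ε * t / 16 * K := by rw [hδ]; field_simp
      have e2 : (N + 1) * (A * (M * t)) ≤ ε * t / 16 * K := by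
        linarith only [mul_le_mul_of_nonneg_right hK2 ht.le]
      have e3 := mul_le_mul_of_nonneg_right c1
        (show 0 ≤ δ * (K * (M * t)) + A * (M * t) by positivity)
      have e4 : 0 < ε * t * K := by positivity
      linarith only [e1, e2, e3, e4]
    have c5 : 0 < ε * t := by positivity
    linarith only [c2, c3, c4, c5]

theorem multi {ι : Type*} {o : X} {R C : ℝ} {φ : ι → ℝ → X → X} {f : ι → X → ℝ}
    (hφ : ∀ j, Flow o R C (φ j)) (hf : ∀ j p q, |f j p - f j q| ≤ dist p q) (hC : 1 ≤ C)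
    (hR : 0 < R) (hD : Dbl o R) {ε : ℝ} (hε : 0 < ε) (s : Finset ι) :
    ∀ M T : ℝ, 1 ≤ M → 0 < T → ∃ x t, 0 < t ∧ dist x o + M * t ≤ T ∧
      ∀ j ∈ s, Good (φ j) (f j) x t M ε := by
  classical
  induction s using Finset.induction_on with
  | empty =>
    intro M T hM hT
    exact ⟨o, T / M, by positivity, by rw [dist_self, zero_add]; field_simp; rfl, by simp⟩
  | insert j s _ ih =>
    intro M T hM hT
    obtain ⟨Λ, ρ₀, h0, h1⟩ := single (hφ j) (hf j) hC hR hD hM hε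
    obtain ⟨x', t', a1, a2, a3⟩ := ih (max Λ 1) (min T ρ₀) (le_max_right _ _) (lt_min hT h0)
    have m0 : 0 < max Λ 1 := lt_of_lt_of_le one_pos (le_max_right _ _)
    obtain ⟨x, t, b1, b2, b3, b4⟩ := h1 x' (max Λ 1 * t') (by positivity)
      (a2.trans (min_le_right _ _))
    have b5 : t' ≤ t := le_of_mul_le_mul_left
      (b2.trans (mul_le_mul_of_nonneg_right (le_max_left _ _) b1.le)) m0
    refine ⟨x, t, b1, by linarith [dist_triangle x x' o, min_le_left T ρ₀], fun i hi => ?_⟩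
    rcases Finset.mem_insert.1 hi with rfl | hi
    · exact b4
    · exact (a3 i hi).mono (mul_le_mul_of_nonneg_left b5 hε.le) b3

theorem exists_ultra {ι : Type} {o : X} {R C : ℝ} {φ : ι → ℝ → X → X} {f : ι → X → ℝ}
    (hφ : ∀ j, Flow o R C (φ j)) (hf : ∀ j p q, |f j p - f j q| ≤ dist p q) (hC : 1 ≤ C)
    (hR : 0 < R) (hD : Dbl o R) :
    ∃ (U : Ultrafilter (Finset ι × ℕ)) (x : Finset ι × ℕ → X) (t : Finset ι × ℕ → ℝ),
      (∀ i, 0 < t i) ∧ Tendsto x U (𝓝 o) ∧ Tendsto t U (𝓝 0) ∧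
      ∀ j M ε, 0 < ε → ∀ᶠ i in U, Good (φ j) (f j) (x i) (t i) M ε := by
  classical
  have key : ∀ i : Finset ι × ℕ, ∃ x t, 0 < t ∧ dist x o + ((i.2 : ℝ) + 1) * t ≤ 1 / (i.2 + 1) ∧
      ∀ j ∈ i.1, Good (φ j) (f j) x t ((i.2 : ℝ) + 1) (1 / (i.2 + 1)) := fun i =>
    multi hφ hf hC hR hD (by positivity) i.1 _ _ (by linarith [Nat.cast_nonneg (α := ℝ) i.2])
      (by positivity)
  choose x t h0 h1 h2 using key
  obtain ⟨U, hU⟩ := Ultrafilter.exists_le ((atTop : Filter (Finset ι)) ×ˢ (atTop : Filter ℕ))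
  have hn : Tendsto (fun i : Finset ι × ℕ => i.2) U atTop := tendsto_snd.mono_left hU
  have hs : Tendsto (fun i : Finset ι × ℕ => i.1) U atTop := tendsto_fst.mono_left hU
  have hz : Tendsto (fun i : Finset ι × ℕ => 1 / ((i.2 : ℝ) + 1)) U (𝓝 0) :=
    tendsto_one_div_add_atTop_nhds_zero_nat.comp hn
  have hp : ∀ i : Finset ι × ℕ, t i ≤ ((i.2 : ℝ) + 1) * t i := fun i =>
    le_mul_of_one_le_left (h0 i).le (by linarith [Nat.cast_nonneg (α := ℝ) i.2])
  refine ⟨U, x, t, h0, ?_, ?_, fun j M ε hε => ?_⟩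
  · rw [tendsto_iff_dist_tendsto_zero]
    exact squeeze_zero (fun _ => dist_nonneg) (fun i => by linarith [h1 i, hp i, h0 i]) hz
  · exact squeeze_zero (fun i => (h0 i).le)
      (fun i => by linarith [h1 i, hp i, dist_nonneg (x := x i) (y := o)]) hz
  · filter_upwards [hs.eventually_ge_atTop {j}, hz.eventually (ge_mem_nhds hε),
      (tendsto_natCast_atTop_atTop (R := ℝ).comp hn).eventually_ge_atTop M] with i a b c
    refine (h2 i j (a (Finset.mem_singleton_self j))).mono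
      (mul_le_mul_of_nonneg_right b (h0 i).le) ?_
    rw [dist_self, zero_add]
    exact mul_le_mul_of_nonneg_right (by simp only [Function.comp] at c; linarith) (h0 i).le

end Pool.Agent.P.MP_07c576_gt.Ql
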