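import Pool.Agent.P.MP_07c576_gt.Ql.Geo
import Pool.Agent.P.MP_07c576_gt.Ql.Diff

/-! The flows towards far points in a G-space with controlled contractions. -/

set_option linter.unusedSectionVars false

namespace Pool.Agent.P.MP_07c576_gt.Ql

open Set Metric Topology Filter

variable {X : Type} [MetricSpace X]

/-- The rescaled contractions are controlled on the ball of radius `R` about `o`. -/
structure Ctl (o : X) (R C : ℝ) : Prop where
  loc : Loc o R
  one_le : 1 ≤ C
  low : ∀ δ > 0, ∃ c > 0, ∀ x ∈ ball o R, ∀ y ∈ ball o R, ∀ z ∈ ball o R, ∀ t, 0 ≤ t → t ≤ 1 →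
    δ ≤ dist y z → c * t ≤ dist (geo x y t) (geo x z t)
  up : ∀ ε > 0, ∃ δ > 0, ∀ x ∈ ball o R, ∀ y ∈ ball o R, ∀ z ∈ ball o R, ∀ t, 0 ≤ t → t ≤ 1 →
    dist y z ≤ δ → dist (geo x y t) (geo x z t) ≤ ε * t
  lip : (∀ x ∈ ball o R, ∀ y ∈ ball o R, ∀ z ∈ ball o R, ∀ t, 1 / 2 ≤ t → t ≤ 1 →
      dist (geo x y t) (geo x z t) ≤ C * dist y z) ∨
    ∀ x ∈ ball o R, ∀ y ∈ ball o R, ∀ z ∈ ball o R, ∀ t, 1 / 2 ≤ t → t ≤ 1 →
      dist y z ≤ C * dist (geo x y t) (geo x z t)

/-- The flow towards `v`. -/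
noncomputable def fl (v : X) (s : ℝ) (p : X) : X := ray v p (dist v p - s)

theorem geo_eq_ray {a y : X} (h : a ≠ y) (t : ℝ) : geo a y t = ray a y (t * dist a y) := by
  rw [ray, mul_div_cancel_right₀ _ (dist_pos.2 h).ne']

variable [ProperSpace X] {o : X} {R C : ℝ}

theorem Loc.geo_inv (L : Loc o R) {x p : X} (hx : x ∈ ball o R) (hp : p ∈ ball o R) {t : ℝ}
    (h0 : 0 < t) (h1 : t ≤ 1) (h2 : dist x o + dist x p / t < R) :
    ∃ y ∈ ball o R, dist x y = dist x p / t ∧ geo x y t = p := by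
  have hd : 0 ≤ dist x p := dist_nonneg
  obtain ⟨y, e1, e2⟩ := L.exists_geo hx hp (s := 1 / t) (by positivity)
    (by rw [one_div, inv_mul_eq_div]; linarith [dist_nonneg (x := x) (y := o), L.pos])
  rw [one_div, inv_mul_eq_div] at e1
  have hy : y ∈ ball o R := by
    rw [mem_ball]; linarith [dist_triangle_left y o x]
  have hg : Geo x y t p := ⟨by rw [e1]; field_simp, by
    rw [dist_comm, e2, e1, abs_of_nonneg (sub_nonneg.2 h1),
      abs_of_nonpos (sub_nonpos.2 (one_le_one_div h0 h1))]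
    field_simp
    ring⟩
  exact ⟨y, hy, e1, L.geo_unique hx hy (geo_of_exists ⟨p, hg⟩) hg⟩

theorem Loc.flip (L : Loc o R) {p a : X} (hp : p ∈ ball o R) (ha : a ∈ ball o R) (h : a ≠ p)
    {s : ℝ} (h0 : 0 ≤ s) (h1 : s ≤ dist a p) : fl a s p = ray p a s := by
  obtain ⟨e1, e2⟩ := L.ray_spec ha hp h (t := dist a p - s) (by linarith)
    (by linarith [L.dist_lt ha hp, L.pos])
  refine L.eq_ray hp ha h.symm ?_ ?_
  · rw [fl, e2, sub_sub_cancel, abs_of_nonneg h0]
  · rw [fl, e1, dist_comm p a, abs_of_nonneg (by linarith)]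

namespace Ctl

variable (H : Ctl o R C)
include H

theorem dbl : Dbl o (R / 4) := by
  intro κ hκ
  have L := H.loc
  have hR := L.pos
  obtain ⟨δ, hδ, h⟩ := H.up (κ * (R / 4)) (by positivity)
  obtain ⟨T, T1, T2, T3⟩ := finite_cover_balls_of_compact (isCompact_closedBall o (R / 2)) hδ
  classical
  refine ⟨T2.toFinset.card, fun x hx r r0 r1 => ?_⟩
  obtain ⟨t, t0, rfl⟩ : ∃ t : ℝ, 0 < t ∧ r = t * (R / 4) :=
    ⟨r / (R / 4), by positivity, by field_simp⟩
  have t1 : t ≤ 1 := by nlinarith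
  have x1 := mem_ball.1 hx
  have x2 : x ∈ ball o R := mem_ball.2 (by linarith)
  have hb : ∀ c ∈ T, c ∈ ball o R := fun c hc =>
    mem_ball.2 (by linarith [mem_closedBall.1 (T1 hc)])
  refine ⟨T2.toFinset.image fun c => geo x c t, Finset.card_image_le, fun q hq => ?_,
    fun p hp => ?_⟩
  · obtain ⟨c, hc, rfl⟩ := Finset.mem_image.1 hq
    rw [T2.mem_toFinset] at hc
    rw [dist_comm, (L.geo_spec2 x2 (hb c hc) t0.le (by linarith)).1]
    have : dist x c ≤ 3 * (R / 4) := by
      linarith [mem_closedBall.1 (T1 hc), dist_triangle_right x c o]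
    nlinarith
  · have p1 : dist x p / t ≤ R / 4 := by rw [div_le_iff₀ t0, dist_comm]; linarith
    obtain ⟨y, hy, e1, rfl⟩ := L.geo_inv x2 (p := p)
      (mem_ball.2 (by linarith [dist_triangle p x o])) t0 t1 (by linarith)
    obtain ⟨c, hc, hyc⟩ := mem_iUnion₂.1 (T3 (show y ∈ closedBall o (R / 2) from
      mem_closedBall.2 (by linarith [dist_triangle_left y o x])))
    refine ⟨_, Finset.mem_image.2 ⟨c, T2.mem_toFinset.2 hc, rfl⟩,
      (h x x2 y hy c (hb c hc) t t0.le t1 (mem_ball.1 hyc).le).trans (le_of_eq (by ring))⟩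

/-- Rays to nearby far points stay close, relative to their length. -/
theorem cmp {η : ℝ} (hη : 0 < η) : ∃ δ > 0, ∀ p ∈ ball o R, ∀ a ∈ ball o R, ∀ b ∈ ball o R,
    R / 4 ≤ dist p a → R / 4 ≤ dist p b → dist a b ≤ δ → ∀ s, 0 ≤ s → s ≤ R / 4 →
      dist (ray p a s) (ray p b s) ≤ η * s := by
  have L := H.loc
  have hR := L.pos
  obtain ⟨δ, hδ, h⟩ := H.up (η * R / 8) (by positivity)
  refine ⟨min δ (η * R / 8), lt_min hδ (by positivity), fun p hp a ha b hb a1 b1 hab s s0 s1 => ?_⟩
  have a0 : 0 < dist p a := by linarith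
  have b0 : p ≠ b := dist_pos.1 (by linarith)
  obtain ⟨τ, τ0, rfl⟩ : ∃ τ : ℝ, 0 ≤ τ ∧ s = τ * dist p a :=
    ⟨s / dist p a, by positivity, by field_simp⟩
  have τ1 : τ ≤ 1 := by nlinarith
  have e1 := h p hp a ha b hb τ τ0 τ1 (hab.trans (min_le_left _ _))
  rw [geo_eq_ray (dist_pos.1 a0), geo_eq_ray b0] at e1
  have e2 := L.dist_ray hp hb b0 (t := τ * dist p b) (t' := τ * dist p a) (by positivity)
    (by nlinarith [L.dist_lt hp hb]) s0 (by linarith)
  rw [← mul_sub, abs_mul, abs_of_nonneg τ0, dist_comm p b, dist_comm p a] at e2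
  have e3 := (abs_dist_sub_le b a p).trans ((dist_comm a b ▸ hab).trans (min_le_right _ _))
  have e4 := mul_le_mul_of_nonneg_left e3 τ0
  have e5 := mul_le_mul_of_nonneg_left a1 (mul_nonneg hη.le τ0)
  rw [dist_comm b p, dist_comm a p] at e2 e4
  linarith [dist_triangle (ray p a (τ * dist p a)) (ray p b (τ * dist p b))
    (ray p b (τ * dist p a))]

theorem far {v p : X} (hv : dist o v = R / 2) (hp : p ∈ ball o (R / 8)) :
    v ∈ ball o R ∧ p ∈ ball o R ∧ v ≠ p ∧ 3 * R / 8 < dist v p ∧ dist v p < 5 * R / 8 := by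
  have hR := H.loc.pos
  rw [mem_ball] at hp
  have h1 : 3 * R / 8 < dist v p := by linarith [dist_triangle_right o v p, dist_comm o p]
  exact ⟨mem_ball'.2 (by linarith), mem_ball.2 (by linarith), dist_pos.1 (by linarith), h1,
    by linarith [dist_triangle_left v p o, dist_comm o p]⟩

theorem fl_spec {v p : X} (hv : dist o v = R / 2) (hp : p ∈ ball o (R / 8)) {s : ℝ}
    (hs : |s| ≤ R / 8) : dist v (fl v s p) = dist v p - s ∧ dist p (fl v s p) = |s| := by
  obtain ⟨a, b, c, d, e⟩ := H.far hv hp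
  have := abs_le.1 hs
  have h := H.loc.ray_spec a b c (t := dist v p - s) (by linarith) (by linarith)
  rwa [sub_sub_cancel] at h

/-- Moving away from `v` is almost the same as moving towards the opposite point. -/
theorem rev {v w : X} (hv : dist o v = R / 2) (hw : dist o w = R / 2) (hvw : dist v w = R)
    {η : ℝ} (hη : 0 < η) : ∃ ρ > 0, ∀ p ∈ ball o ρ, ∀ s, 0 ≤ s → s ≤ ρ →
      dist (fl v (-s) p) (fl w s p) ≤ η * s := by
  have L := H.loc
  have hR := L.pos
  obtain ⟨δ, hδ, h⟩ := H.cmp hη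
  have ho : o ∈ ball o (R / 8) := mem_ball_self (by positivity)
  have hc : ContinuousOn (fun p => ray v p (dist v p + R / 2)) (ball o (R / 8)) :=
    L.continuous_ray continuousOn_const continuousOn_id (by fun_prop) fun p hp => by
      obtain ⟨a, b, c, d, e⟩ := H.far hv hp
      exact ⟨a, b, c, by linarith, by linarith⟩
  obtain ⟨ρ, hρ, h1⟩ := Metric.continuousAt_iff.1 (hc.continuousAt (isOpen_ball.mem_nhds ho)) δ hδ
  obtain ⟨a, b, c, -, -⟩ := H.far hv ho
  rw [← L.eq_ray a b c (z := w) (by rw [dist_comm v o]; linarith)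
    (by rw [sub_add_cancel_left, abs_neg, abs_of_pos (by linarith), hw])] at h1
  refine ⟨min ρ (R / 8), lt_min hρ (by positivity), fun p hp s s0 s1 => ?_⟩
  have p1 : p ∈ ball o (R / 8) := ball_subset_ball (min_le_right _ _) hp
  have s2 := s1.trans (min_le_right _ _)
  obtain ⟨-, b1, c1, d1, e1⟩ := H.far hv p1
  obtain ⟨a2, -, c2, d2, e2⟩ := H.far hw p1
  have f1 := (L.ray_spec a b1 c1 (t := dist v p + R / 2) (by linarith) (by linarith)).2
  rw [sub_add_cancel_left, abs_neg, abs_of_pos (by linarith)] at f1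
  have f2 : ray v p (dist v p + R / 2) ∈ ball o R := mem_ball.2 (by
    linarith [dist_triangle_left (ray v p (dist v p + R / 2)) o p, mem_ball.1 p1])
  have f3 := (H.fl_spec hv p1 (s := -s) (by rwa [abs_neg, abs_of_nonneg s0])).2
  rw [abs_neg, abs_of_nonneg s0] at f3
  rw [L.flip b1 a2 c2 s0 (by linarith), L.eq_ray b1 f2 (dist_pos.1 (by linarith)) f3 (by
    rw [fl, L.dist_ray a b1 c1 (by linarith) (by linarith) (by linarith) (by linarith), f1]
    congr 1; ring)]
  exact h p b1 _ f2 w a2 (by linarith) (by rw [dist_comm]; linarith)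
    (h1 (ball_subset_ball (min_le_left _ _) hp)).le s s0 (by linarith)

theorem scale {a b d s : ℝ} (h : |a - b| ≤ d) (s0 : 0 ≤ s) (s1 : s ≤ a) (a0 : 0 < a) :
    |s / a * b - s| ≤ d := by
  rw [show s / a * b - s = s / a * (b - a) by field_simp, abs_mul,
    abs_of_nonneg (div_nonneg s0 a0.le), abs_sub_comm]
  exact (mul_le_of_le_one_left (abs_nonneg _) ((div_le_one a0).2 s1)).trans h

/-- One direction of time is Lipschitz. -/
theorem half : ∃ e : ℝ, (e = 1 ∨ e = -1) ∧ ∀ v, dist o v = R / 2 → ∀ p ∈ ball o (R / 8),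
    ∀ q ∈ ball o (R / 8), ∀ s, 0 ≤ s → s ≤ R / 8 →
      dist (fl v (e * s) p) (fl v (e * s) q) ≤ (C + 1) * dist p q := by
  have L := H.loc
  have hR := L.pos
  rcases H.lip with h | h
  · refine ⟨1, .inl rfl, fun v hv p hp q hq s s0 s1 => ?_⟩
    obtain ⟨a, b1, c1, d1, e1⟩ := H.far hv hp
    obtain ⟨-, b2, c2, d2, e2⟩ := H.far hv hq
    have p0 : 0 < dist v p := by linarith
    have t0 : 0 ≤ s / dist v p := by positivity
    have t1 : s / dist v p ≤ 1 / 2 := by rw [div_le_iff₀ p0]; linarith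
    have k := h v a p b1 q b2 (1 - s / dist v p) (by linarith) (by linarith)
    rw [geo_eq_ray c1, geo_eq_ray c2, show (1 - s / dist v p) * dist v p = dist v p - s by
      field_simp] at k
    have k2 := L.dist_ray a b2 c2 (t := (1 - s / dist v p) * dist v q) (t' := dist v q - s)
      (by nlinarith) (by nlinarith) (by linarith) (by linarith)
    rw [show (1 - s / dist v p) * dist v q - (dist v q - s) = -(s / dist v p * dist v q - s) by
      ring, abs_neg] at k2
    have k3 := H.scale (abs_dist_sub_le p q v) s0 (by rw [dist_comm]; linarith)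
      (by rwa [dist_comm])
    rw [dist_comm p v, dist_comm q v] at k3
    rw [one_mul, fl, fl]
    linarith [dist_triangle (ray v p (dist v p - s)) (ray v q ((1 - s / dist v p) * dist v q))
      (ray v q (dist v q - s))]
  · refine ⟨-1, .inr rfl, fun v hv p hp q hq s s0 s1 => ?_⟩
    obtain ⟨a, b1, c1, d1, e1⟩ := H.far hv hp
    obtain ⟨-, b2, c2, d2, e2⟩ := H.far hv hq
    have p0 : 0 < dist v p := by linarith
    have t0 : 0 ≤ s / dist v p := by positivity
    have t1 : s / dist v p ≤ 1 / 3 := by rw [div_le_iff₀ p0]; linarith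
    have key : ∀ y ∈ ball o (R / 8), ray v y ((1 + s / dist v p) * dist v y) ∈ ball o R ∧
        geo v (ray v y ((1 + s / dist v p) * dist v y)) (1 / (1 + s / dist v p)) = y := by
      intro y hy
      obtain ⟨-, b, c, d, e⟩ := H.far hv hy
      obtain ⟨f1, f2⟩ := L.ray_spec a b c (t := (1 + s / dist v p) * dist v y) (by positivity)
        (by nlinarith)
      rw [abs_of_nonpos (by nlinarith)] at f2
      have f3 : ray v y ((1 + s / dist v p) * dist v y) ∈ ball o R := mem_ball.2 (by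
        nlinarith [dist_triangle_left (ray v y ((1 + s / dist v p) * dist v y)) o y, mem_ball.1 hy])
      refine ⟨f3, ?_⟩
      rw [geo_eq_ray (dist_pos.1 (by rw [f1]; nlinarith)), f1,
        show 1 / (1 + s / dist v p) * ((1 + s / dist v p) * dist v y) = dist v y by field_simp,
        L.ray_ray a b c (by nlinarith) (by nlinarith) (by linarith) (by linarith) f3,
        Loc.ray_self c]
    have k := h v a _ (key p hp).1 _ (key q hq).1 (1 / (1 + s / dist v p))
      (one_div_le_one_div_of_le (by linarith) (by linarith))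
      ((div_le_one (by linarith)).2 (by linarith))
    rw [(key p hp).2, (key q hq).2, show (1 + s / dist v p) * dist v p = dist v p - -1 * s by
      field_simp; ring] at k
    have k2 := L.dist_ray a b2 c2 (t := (1 + s / dist v p) * dist v q) (t' := dist v q - -1 * s)
      (by positivity) (by nlinarith) (by linarith) (by linarith)
    rw [show (1 + s / dist v p) * dist v q - (dist v q - -1 * s) = s / dist v p * dist v q - s by
      ring] at k2
    have k3 := H.scale (abs_dist_sub_le p q v) s0 (by rw [dist_comm]; linarith)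
      (by rwa [dist_comm])
    rw [dist_comm p v, dist_comm q v] at k3
    rw [fl, fl]
    linarith [dist_triangle (ray v p (dist v p - -1 * s)) (ray v q ((1 + s / dist v p) * dist v q))
      (ray v q (dist v q - -1 * s))]

theorem flow {v : X} (hv : dist o v = R / 2) : Flow o (R / 8) (C + 1) (fl v) := by
  have L := H.loc
  have hR := L.pos
  refine ⟨fun p hp s s' hs hs' => ?_, fun p hp s hs => by rw [dist_comm, (H.fl_spec hv hp hs).2],
    fun η hη => ?_⟩
  · obtain ⟨a, b, c, d, e⟩ := H.far hv hp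
    obtain ⟨f1, f2⟩ := H.fl_spec hv hp hs
    have := abs_le.1 hs
    have := abs_le.1 hs'
    rw [fl, f1, fl, L.ray_ray a b c (by linarith) (by linarith) (by linarith) (by linarith)
      (mem_ball.2 (by
        rw [← fl]; linarith [dist_triangle_left (fl v s p) o p, mem_ball.1 hp])), fl, sub_sub]
  · obtain ⟨a, b, c, -, -⟩ := H.far hv (mem_ball_self (by positivity))
    obtain ⟨w1, w2⟩ := L.ray_spec a b c (t := R) hR.le (by linarith)
    rw [dist_comm v o, hv, abs_of_neg (by linarith)] at w2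
    generalize ray v o R = w at w1 w2
    have hw : dist o w = R / 2 := by linarith
    obtain ⟨ρ₁, r1, h1⟩ := H.rev hv hw w1 (half_pos hη)
    obtain ⟨ρ₂, r2, h2⟩ := H.rev hw hv (by rwa [dist_comm]) (half_pos hη)
    obtain ⟨e, he, h⟩ := H.half
    refine ⟨min (min ρ₁ ρ₂) (R / 8), lt_min (lt_min r1 r2) (by positivity),
      fun p hp q hq s hs => ?_⟩
    rw [mem_ball, lt_min_iff, lt_min_iff] at hp hq
    rw [le_min_iff, le_min_iff] at hs
    have s0 := abs_nonneg s
    have k1 := h v hv p hp.2 q hq.2 _ s0 hs.2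
    have k2 := h w hw p hp.2 q hq.2 _ s0 hs.2
    have := mul_nonneg hη.le s0
    rcases abs_cases s with ⟨u, -⟩ | ⟨u, -⟩ <;> rcases he with rfl | rfl
    · rw [one_mul, u] at k1
      linarith
    · have a1 := h2 p hp.1.2 _ s0 hs.1.2
      have a2 := h2 q hq.1.2 _ s0 hs.1.2
      rw [neg_one_mul] at k2
      rw [show fl v |s| = fl v s by rw [u]] at a1 a2
      linarith [dist_triangle4 (fl v s p) (fl w (-|s|) p) (fl w (-|s|) q) (fl v s q),
        dist_comm (fl v s p) (fl w (-|s|) p)]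
    · have a1 := h1 p hp.1.1 _ s0 hs.1.1
      have a2 := h1 q hq.1.1 _ s0 hs.1.1
      rw [one_mul] at k2
      rw [show fl v (-|s|) = fl v s by rw [u, neg_neg]] at a1 a2
      linarith [dist_triangle4 (fl v s p) (fl w |s| p) (fl w |s| q) (fl v s q),
        dist_comm (fl v s q) (fl w |s| q)]
    · rw [u, neg_one_mul, neg_neg] at k1
      linarith

end Ctl

end Pool.Agent.P.MP_07c576_gt.Ql
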