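import Mathlib

/-! Local geodesic structure of a G-space (a copy of the first part of the file Geo of this
problem, without its imports). -/

set_option linter.unusedSectionVars false

namespace Pool.Agent.P.MP_07c576_gt.Ql

open Set Metric Topology Filter

theorem continuousOn_of_closed {P X : Type*} [TopologicalSpace P] [TopologicalSpace X]
    {D : Set P} {K : Set X} (hK : IsCompact K) {R : Set (P × X)} (hR : IsClosed R) {g : P → X}
    (hg : ∀ w ∈ D, g w ∈ K ∧ (w, g w) ∈ R) (hu : ∀ w ∈ D, ∀ x, (w, x) ∈ R → x = g w) :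
    ContinuousOn g D := by
  intro w hw
  refine hK.tendsto_nhds_of_unique_mapClusterPt
    (eventually_mem_nhdsWithin.mono fun w' hw' => (hg w' hw').1) fun x _ hx => hu w hw x ?_
  obtain ⟨U, hU, hU'⟩ := mapClusterPt_iff_ultrafilter.1 hx
  refine hR.mem_of_tendsto (f := fun w' => (w', g w')) (b := (U : Filter P))
    (Tendsto.prodMk_nhds (hU.trans nhdsWithin_le_nhds) hU') ?_
  exact hU (eventually_mem_nhdsWithin.mono fun w' hw' => (hg w' hw').2)

variable {X : Type} [MetricSpace X]

/-- `z` is the point with parameter `s` on the ray from `x` through `y`. -/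
def Geo (x y : X) (s : ℝ) (z : X) : Prop :=
  dist x z = s * dist x y ∧ dist y z = |1 - s| * dist x y

open Classical in
/-- The point with parameter `s` on the ray from `x` through `y`. -/
noncomputable def geo (x y : X) (s : ℝ) : X := if h : ∃ z, Geo x y s z then h.choose else x

/-- The point at distance `t` from `a` on the ray through `y`. -/
noncomputable def ray (a y : X) (t : ℝ) : X := geo a y (t / dist a y)

theorem geo_of_exists {x y : X} {s : ℝ} (h : ∃ z, Geo x y s z) : Geo x y s (geo x y s) := by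
  rw [geo, dif_pos h]; exact h.choose_spec

theorem geo_zero (x y : X) : geo x y 0 = x := by
  have := (geo_of_exists (x := x) (y := y) (s := 0) ⟨x, by simp, by simp [dist_comm]⟩).1
  rw [zero_mul, dist_eq_zero] at this
  exact this.symm

theorem geo_one (x y : X) : geo x y 1 = y := by
  have := (geo_of_exists (x := x) (y := y) (s := 1) ⟨y, by simp, by simp⟩).2
  simp only [sub_self, abs_zero, zero_mul, dist_eq_zero] at this
  exact this.symm

theorem geo_self (x : X) (s : ℝ) : geo x x s = x := by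
  have := (geo_of_exists (x := x) (y := x) (s := s) ⟨x, by simp, by simp⟩).1
  simp only [dist_self, mul_zero, dist_eq_zero] at this
  exact this.symm

/-- The properties of a G-space near the point `o`. -/
structure Loc (o : X) (R : ℝ) : Prop where
  pos : 0 < R
  menger : ∀ x z : X, x ≠ z → ∃ y : X, y ≠ x ∧ y ≠ z ∧ dist x y + dist y z = dist x z
  ext : ∀ x y : X, x ∈ ball o (5 * R) → y ∈ ball o (5 * R) → x ≠ y →
    ∃ z : X, z ≠ y ∧ dist x y + dist y z = dist x z
  uniq : ∀ x y z₁ z₂ : X, x ≠ y → dist x y + dist y z₁ = dist x z₁ →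
    dist x y + dist y z₂ = dist x z₂ → dist y z₁ = dist y z₂ → z₁ = z₂

namespace Loc

variable [ProperSpace X] {o : X} {R : ℝ} (L : Loc o R)
include L

theorem btw (x z : X) {t : ℝ} (h0 : 0 ≤ t) (h1 : t ≤ dist x z) :
    ∃ y, dist x y = t ∧ dist y z = dist x z - t := by
  have hA : IsCompact {y | dist x y + dist y z = dist x z ∧ dist x y ≤ t} :=
    (isCompact_closedBall x t).of_isClosed_subset
      ((isClosed_eq (by fun_prop) (by fun_prop)).inter
        (isClosed_le (f := fun y => dist x y) (by fun_prop) continuous_const))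
      fun y hy => mem_closedBall'.2 hy.2
  obtain ⟨y, hy, hy'⟩ := hA.exists_isMaxOn ⟨x, by simp, by simpa using h0⟩
    (f := fun y => dist x y) (by fun_prop)
  have hB : IsCompact {w | dist y w + dist w z = dist y z ∧ t ≤ dist x w} :=
    (isCompact_closedBall y (dist y z)).of_isClosed_subset
      ((isClosed_eq (by fun_prop) (by fun_prop)).inter
        (isClosed_le (g := fun w => dist x w) continuous_const (by fun_prop)))
      fun w hw => mem_closedBall'.2 (by linarith [hw.1, dist_nonneg (x := w) (y := z)])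
  obtain ⟨w, hw, hw'⟩ := hB.exists_isMinOn ⟨z, by simp, h1⟩ (f := fun w => dist y w) (by fun_prop)
  by_cases hyw : y = w
  · subst hyw
    exact ⟨y, le_antisymm hy.2 hw.2, by linarith [hy.1, hy.2, hw.2]⟩
  · exfalso
    obtain ⟨u, hu1, hu2, hu⟩ := L.menger y w hyw
    have e1 := dist_triangle x u z
    have e2 := dist_triangle x y u
    have e3 := dist_triangle u w z
    have e4 := dist_triangle y u z
    have p1 := dist_pos.2 hu1.symm
    have p2 := dist_pos.2 hu2
    rcases le_total (dist x u) t with h | h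
    · have : dist x u ≤ dist x y := hy' ⟨by linarith [hy.1, hw.1], h⟩
      linarith [hy.1, hw.1]
    · have : dist y w ≤ dist y u := hw' ⟨by linarith [hy.1, hw.1], h⟩
      linarith

theorem long {x y : X} (hx : x ∈ ball o R) (hy : y ∈ ball o R) (hxy : x ≠ y) {t : ℝ} (h0 : 0 ≤ t)
    (h1 : t ≤ 4 * R) : ∃ z, dist y z = t ∧ dist x y + dist y z = dist x z := by
  have hR := L.pos
  have hA : IsCompact {z | dist x y + dist y z = dist x z ∧ dist y z ≤ t} :=
    (isCompact_closedBall y t).of_isClosed_subset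
      ((isClosed_eq (by fun_prop) (by fun_prop)).inter
        (isClosed_le (f := fun z => dist y z) (by fun_prop) continuous_const))
      fun z hz => mem_closedBall'.2 hz.2
  obtain ⟨z, hz, hz'⟩ := hA.exists_isMaxOn ⟨y, by simp, by simpa using h0⟩
    (f := fun z => dist y z) (by fun_prop)
  refine ⟨z, le_antisymm hz.2 (not_lt.1 fun hlt => ?_), hz.1⟩
  have p0 := dist_pos.2 hxy
  have hzb : z ∈ ball o (5 * R) := by
    rw [mem_ball] at hy ⊢
    linarith [dist_triangle z y o, dist_comm z y]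
  obtain ⟨u, hu1, hu⟩ := L.ext x z (ball_subset_ball (by linarith) hx) hzb
    (dist_pos.1 (by linarith [hz.1, dist_nonneg (x := y) (y := z)]))
  have p1 := dist_pos.2 hu1.symm
  obtain ⟨w, hw1, hw2⟩ := L.btw z u (t := min (dist z u) (t - dist y z))
    (le_min p1.le (by linarith)) (min_le_left _ _)
  have p2 : 0 < dist z w := by rw [hw1]; exact lt_min p1 (by linarith)
  have p3 : dist z w ≤ t - dist y z := by rw [hw1]; exact min_le_right _ _
  have e1 := dist_triangle x w u
  have e2 := dist_triangle x y w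
  have e3 := dist_triangle y z w
  have : dist y w ≤ dist y z := hz' ⟨by linarith [hz.1], by linarith⟩
  linarith [hz.1]

theorem exists_geo {x y : X} (hx : x ∈ ball o R) (hy : y ∈ ball o R) {s : ℝ} (h0 : 0 ≤ s)
    (h1 : s * dist x y ≤ 4 * R) : ∃ z, Geo x y s z := by
  have hd : 0 ≤ dist x y := dist_nonneg
  rcases le_total s 1 with h | h
  · obtain ⟨z, h2, h3⟩ := L.btw x y (t := s * dist x y) (by positivity) (by nlinarith)
    exact ⟨z, h2, by rw [dist_comm, h3, abs_of_nonneg (by linarith)]; ring⟩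
  · by_cases hxy : x = y
    · subst hxy; exact ⟨x, by simp, by simp⟩
    obtain ⟨z, h2, h3⟩ := L.long hx hy hxy (t := (s - 1) * dist x y) (by nlinarith) (by nlinarith)
    exact ⟨z, by linarith, by rw [h2, abs_of_nonpos (by linarith)]; ring⟩

theorem geo_spec {x y : X} (hx : x ∈ ball o R) (hy : y ∈ ball o R) {s : ℝ} (h0 : 0 ≤ s)
    (h1 : s * dist x y ≤ 4 * R) : Geo x y s (geo x y s) :=
  geo_of_exists (L.exists_geo hx hy h0 h1)

theorem geo_unique {x y : X} (hx : x ∈ ball o R) (hy : y ∈ ball o R) {s : ℝ} {z z' : X}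
    (h : Geo x y s z) (h' : Geo x y s z') : z = z' := by
  have hR := L.pos
  by_cases hxy : x = y
  · subst hxy
    have h1 := h.1
    have h2 := h'.1
    simp only [dist_self, mul_zero, dist_eq_zero] at h1 h2
    rw [← h1, ← h2]
  obtain ⟨h1, h2⟩ := h
  obtain ⟨h3, h4⟩ := h'
  rcases le_total s 1 with h | h
  · rw [abs_of_nonneg (by linarith)] at h2 h4
    obtain ⟨e, he1, he⟩ := L.long hx hy hxy (t := R) hR.le (by linarith)
    have key : ∀ w, dist x w = s * dist x y → dist y w = (1 - s) * dist x y →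
        dist e y + dist y w = dist e w := by
      intro w h5 h6
      linarith [dist_triangle e y w, dist_triangle x w e, dist_comm e y, dist_comm e w]
    exact L.uniq e y z z' (fun h => by rw [h, dist_self] at he1; linarith) (key z h1 h2)
      (key z' h3 h4) (by rw [h2, h4])
  · rw [abs_of_nonpos (by linarith)] at h2 h4
    exact L.uniq x y z z' hxy (by linarith) (by linarith) (by rw [h2, h4])

theorem dist_lt {x y : X} (hx : x ∈ ball o R) (hy : y ∈ ball o R) : dist x y < 2 * R := by
  rw [mem_ball] at hx hy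
  linarith [dist_triangle_right x y o]

theorem continuousOn_geo : ContinuousOn (fun q : X × X × ℝ => geo q.1 q.2.1 q.2.2)
    {q | q.1 ∈ ball o R ∧ q.2.1 ∈ ball o R ∧ 0 ≤ q.2.2 ∧ q.2.2 * dist q.1 q.2.1 ≤ 4 * R} := by
  refine continuousOn_of_closed (isCompact_closedBall o (5 * R))
    (R := {w : (X × X × ℝ) × X | Geo w.1.1 w.1.2.1 w.1.2.2 w.2})
    ((isClosed_eq (by fun_prop) (by fun_prop)).inter (isClosed_eq (by fun_prop) (by fun_prop)))
    (fun q hq => ?_) fun q hq x hx => ?_
  · have h := L.geo_spec hq.1 hq.2.1 hq.2.2.1 hq.2.2.2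
    refine ⟨?_, h⟩
    have h1 := mem_ball.1 hq.1
    rw [mem_closedBall]
    linarith [dist_triangle_left (geo q.1 q.2.1 q.2.2) o q.1, h.1, hq.2.2.2]
  · exact L.geo_unique hq.1 hq.2.1 hx (L.geo_spec hq.1 hq.2.1 hq.2.2.1 hq.2.2.2)

theorem geo_spec2 {x y : X} (hx : x ∈ ball o R) (hy : y ∈ ball o R) {s : ℝ} (h0 : 0 ≤ s)
    (h1 : s ≤ 2) : Geo x y s (geo x y s) :=
  L.geo_spec hx hy h0 (by nlinarith [L.dist_lt hx hy, dist_nonneg (x := x) (y := y)])

theorem dist_geo_le {x y : X} (hx : x ∈ ball o R) (hy : y ∈ ball o R) {s : ℝ}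
    (hs : s ∈ Icc (0 : ℝ) 1) : dist (geo x y s) x ≤ dist x y := by
  rw [dist_comm, (L.geo_spec2 hx hy hs.1 (by linarith [hs.2])).1]
  exact mul_le_of_le_one_left dist_nonneg hs.2

theorem continuous_geo {P : Type*} [TopologicalSpace P] {f g : P → X} {s : P → ℝ} {D : Set P}
    (hf : ContinuousOn f D) (hg : ContinuousOn g D) (hs : ContinuousOn s D)
    (h : ∀ p ∈ D, f p ∈ ball o R ∧ g p ∈ ball o R ∧ 0 ≤ s p ∧ s p ≤ 2) :
    ContinuousOn (fun p => geo (f p) (g p) (s p)) D :=
  L.continuousOn_geo.comp (hf.prodMk (hg.prodMk hs)) fun p hp =>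
    ⟨(h p hp).1, (h p hp).2.1, (h p hp).2.2.1, by
      have := L.dist_lt (h p hp).1 (h p hp).2.1
      have := (h p hp).2.2
      change s p * dist (f p) (g p) ≤ 4 * R
      nlinarith [dist_nonneg (x := f p) (y := g p)]⟩

omit [ProperSpace X] L in
theorem geo_iff {a y z : X} (hay : a ≠ y) {t : ℝ} :
    Geo a y (t / dist a y) z ↔ dist a z = t ∧ dist y z = |dist a y - t| := by
  have hd := dist_pos.2 hay
  rw [Geo, div_mul_cancel₀ _ hd.ne']
  have : |1 - t / dist a y| * dist a y = |dist a y - t| := by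
    conv_lhs => rw [← abs_of_pos hd, ← abs_mul, abs_of_pos hd]
    congr 1
    field_simp
  rw [this]

theorem ray_spec {a y : X} (ha : a ∈ ball o R) (hy : y ∈ ball o R) (hay : a ≠ y) {t : ℝ}
    (h0 : 0 ≤ t) (h1 : t ≤ 4 * R) :
    dist a (ray a y t) = t ∧ dist y (ray a y t) = |dist a y - t| :=
  (geo_iff hay).1 (L.geo_spec ha hy (div_nonneg h0 dist_nonneg)
    (by rwa [div_mul_cancel₀ _ (dist_pos.2 hay).ne']))

theorem eq_ray {a y z : X} (ha : a ∈ ball o R) (hy : y ∈ ball o R) (hay : a ≠ y) {t : ℝ}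
    (h : dist a z = t) (h' : dist y z = |dist a y - t|) : z = ray a y t :=
  L.geo_unique ha hy ((geo_iff hay).2 ⟨h, h'⟩) (geo_of_exists ⟨z, (geo_iff hay).2 ⟨h, h'⟩⟩)

omit [ProperSpace X] L in
theorem ray_self {a y : X} (hay : a ≠ y) : ray a y (dist a y) = y := by
  rw [ray, div_self (dist_pos.2 hay).ne', geo_one]

theorem continuous_ray {P : Type*} [TopologicalSpace P] {f g : P → X} {t : P → ℝ} {D : Set P}
    (hf : ContinuousOn f D) (hg : ContinuousOn g D) (ht : ContinuousOn t D)
    (h : ∀ p ∈ D, f p ∈ ball o R ∧ g p ∈ ball o R ∧ f p ≠ g p ∧ 0 ≤ t p ∧ t p ≤ 4 * R) :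
    ContinuousOn (fun p => ray (f p) (g p) (t p)) D :=
  L.continuousOn_geo.comp (hf.prodMk (hg.prodMk (ht.div
    (continuous_dist.comp_continuousOn (hf.prodMk hg))
    fun p hp => (dist_pos.2 (h p hp).2.2.1).ne'))) fun p hp =>
    ⟨(h p hp).1, (h p hp).2.1, div_nonneg (h p hp).2.2.2.1 dist_nonneg, by
      change t p / dist (f p) (g p) * dist (f p) (g p) ≤ 4 * R
      rw [div_mul_cancel₀ _ (dist_pos.2 (h p hp).2.2.1).ne']
      exact (h p hp).2.2.2.2⟩

theorem dist_ray {a y : X} (ha : a ∈ ball o R) (hy : y ∈ ball o R) (hay : a ≠ y) {t t' : ℝ}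
    (h0 : 0 ≤ t) (h1 : t ≤ 4 * R) (h0' : 0 ≤ t') (h1' : t' ≤ 4 * R) :
    dist (ray a y t) (ray a y t') = |t - t'| := by
  wlog h : t ≤ t' generalizing t t'
  · rw [dist_comm, abs_sub_comm]; exact this h0' h1' h0 h1 (not_le.1 h).le
  rw [abs_of_nonpos (by linarith)]
  obtain ⟨e1, e2⟩ := L.ray_spec ha hy hay h0 h1
  obtain ⟨e3, e4⟩ := L.ray_spec ha hy hay h0' h1'
  rcases le_total t' (dist a y) with h2 | h2
  · rw [abs_of_nonneg (by linarith)] at e4
    obtain ⟨w, hw1, hw2⟩ := L.btw a (ray a y t') h0 (by linarith)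
    rw [← L.eq_ray ha hy hay hw1 (by
      rw [abs_of_nonneg (by linarith)]
      linarith [dist_triangle_right y w (ray a y t'), dist_triangle_right a y w])]
    linarith
  · rw [abs_of_nonpos (by linarith)] at e4
    rcases le_total t (dist a y) with h3 | h3
    · rw [abs_of_nonneg (by linarith)] at e2
      linarith [dist_triangle_left (ray a y t) (ray a y t') y,
        dist_triangle a (ray a y t) (ray a y t')]
    · obtain ⟨w, hw1, hw2⟩ := L.btw y (ray a y t') (t := t - dist a y) (by linarith) (by linarith)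
      rw [← L.eq_ray ha hy hay (z := w) (t := t)
        (by linarith [dist_triangle a y w, dist_triangle a w (ray a y t')])
        (by rw [abs_of_nonpos (by linarith)]; linarith)]
      linarith

theorem ray_ray {a y : X} (ha : a ∈ ball o R) (hy : y ∈ ball o R) (hay : a ≠ y) {t t' : ℝ}
    (h0 : 0 < t) (h1 : t ≤ 4 * R) (h0' : 0 ≤ t') (h1' : t' ≤ 4 * R)
    (hz : ray a y t ∈ ball o R) : ray a (ray a y t) t' = ray a y t' := by
  have e1 := (L.ray_spec ha hy hay h0.le h1).1
  refine (L.eq_ray ha hz (dist_pos.1 (by rwa [e1])) (L.ray_spec ha hy hay h0' h1').1 ?_).symm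
  rw [e1, L.dist_ray ha hy hay h0.le h1 h0' h1']

end Loc

end Pool.Agent.P.MP_07c576_gt.Ql
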