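import Pool.Agent.P.MP_07c576_gt.Ql.Flow

/-! A weak tangent that is a normed space, and the chart that it gives. -/

set_option linter.unusedSectionVars false

namespace Pool.Agent.P.MP_07c576_gt.Ql

open Set Metric Topology Filter
open scoped ENNReal

variable {X : Type} [MetricSpace X]

theorem chart_of [ProperSpace X] {A : Type} [NormedAddCommGroup A] [NormedSpace ℝ A] {o : X}
    {R : ℝ} (hR : 0 < R) (F : X → A)
    (h1 : ∀ ε > 0, ∃ δ > 0, ∀ y ∈ ball o R, ∀ z ∈ ball o R, dist y z ≤ δ → dist (F y) (F z) ≤ ε)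
    (h2 : ∀ δ > 0, ∃ c > 0, ∀ y ∈ ball o R, ∀ z ∈ ball o R, δ ≤ dist y z → c ≤ dist (F y) (F z))
    (h3 : ∀ y ∈ ball o R, ‖F y‖ = dist o y) (h4 : ∀ b, ‖b‖ < R → ∃ y ∈ ball o R, F y = b) :
    ∃ (m : ℕ) (e : OpenPartialHomeomorph X (EuclideanSpace ℝ (Fin m))), o ∈ e.source := by
  have hc : ContinuousOn F (ball o R) := Metric.continuousOn_iff.2 fun z hz ε hε => by
    obtain ⟨δ, hδ, h⟩ := h1 (ε / 2) (half_pos hε)
    exact ⟨δ, hδ, fun y hy hd => (h y hy z hz hd.le).trans_lt (half_lt_self hε)⟩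
  have hi : InjOn F (ball o R) := fun y hy z hz h => by
    by_contra hne
    obtain ⟨c, c0, hc⟩ := h2 _ (dist_pos.2 hne)
    have := hc y hy z hz le_rfl
    rw [h, dist_self] at this
    linarith
  have : Nonempty X := ⟨o⟩
  have hs : SurjOn F (ball o R) (ball 0 R) := fun b hb => h4 b (mem_ball_zero_iff.1 hb)
  have hm : MapsTo F (ball o R) (ball 0 R) := fun y hy => by
    rw [mem_ball_zero_iff, h3 y hy]; exact mem_ball'.1 hy
  have hk : IsCompact (closedBall (0 : A) (R / 2)) := by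
    have hsub : closedBall o (R / 2) ⊆ ball o R := closedBall_subset_ball (half_lt_self hR)
    have e : closedBall (0 : A) (R / 2) = F '' closedBall o (R / 2) := by
      refine Subset.antisymm (fun b hb => ?_) ?_
      · rw [mem_closedBall_zero_iff] at hb
        obtain ⟨y, hy, rfl⟩ := h4 b (by linarith)
        exact ⟨y, mem_closedBall'.2 (h3 y hy ▸ hb), rfl⟩
      · rintro _ ⟨y, hy, rfl⟩
        rw [mem_closedBall_zero_iff, h3 y (hsub hy)]
        exact mem_closedBall'.1 hy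
    exact e ▸ (isCompact_closedBall o _).image_of_continuousOn (hc.mono hsub)
  have := FiniteDimensional.of_isCompact_closedBall ℝ (half_pos hR) hk
  let e : OpenPartialHomeomorph X A :=
    { toPartialEquiv := BijOn.toPartialEquiv F _ _ ⟨hm, hi, hs⟩
      open_source := isOpen_ball
      open_target := isOpen_ball
      continuousOn_toFun := hc
      continuousOn_invFun := Metric.continuousOn_iff.2 fun b hb δ hδ => by
        obtain ⟨c, c0, hc⟩ := h2 δ hδ
        refine ⟨c, c0, fun a ha hd => not_le.1 fun h => ?_⟩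
        have := hc _ (Function.invFunOn_mem (hs ha)) _ (Function.invFunOn_mem (hs hb)) h
        rw [Function.invFunOn_eq (hs ha), Function.invFunOn_eq (hs hb)] at this
        linarith }
  exact ⟨_, e.transHomeomorph (toEuclidean (E := A)).toHomeomorph, mem_ball_self hR⟩

variable {I : Type} (U : Ultrafilter I) (x : I → X) (t : I → ℝ)

theorem ulim {Y : Type} [MetricSpace Y] [ProperSpace Y] {g : I → Y} {c : Y} {r : ℝ}
    (h : ∀ᶠ i in U, dist (g i) c ≤ r) : ∃ y, Tendsto g U (𝓝 y) := by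
  obtain ⟨y, -, hy⟩ := (isCompact_closedBall c r).ultrafilter_le_nhds (U.map g)
    (le_principal_iff.2 h)
  exact ⟨y, hy⟩

/-- The family `p` stays at bounded rescaled distance from the base points. -/
def Bd (p : I → X) : Prop := ∃ M : ℝ, ∀ᶠ i in U, dist (p i) (x i) ≤ M * t i

/-- `b` is the limit of the rescaled distance functions at `p`. -/
def Rep (p : I → X) (b : lp (fun _ : X => ℝ) ∞) : Prop := Bd U x t p ∧
  ∀ w, Tendsto (fun i => (dist w (p i) - dist w (x i)) / t i) U (𝓝 (b w))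

variable {U x t}

theorem Rep.unique {p : I → X} {a b : lp (fun _ : X => ℝ) ∞} (h : Rep U x t p a)
    (h' : Rep U x t p b) : a = b :=
  lp.ext (funext fun w => tendsto_nhds_unique (h.2 w) (h'.2 w))

theorem rep_zero : Rep U x t x 0 :=
  ⟨⟨0, by simp⟩, fun w => by simp⟩

section

variable (ht : ∀ i, 0 < t i)
include ht

theorem quot_le (w p q : X) (i : I) : |(dist w p - dist w q) / t i| ≤ dist p q / t i := by
  rw [abs_div, abs_of_pos (ht i), dist_comm w p, dist_comm w q]
  exact div_le_div_of_nonneg_right (abs_dist_sub_le _ _ _) (ht i).le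

theorem Bd.rep {p : I → X} (h : Bd U x t p) : ∃ b, Rep U x t p b := by
  obtain ⟨M, hM⟩ := id h
  have k : ∀ w, ∀ᶠ i in U, dist ((dist w (p i) - dist w (x i)) / t i) 0 ≤ M := fun w =>
    hM.mono fun i hi => by
      rw [Real.dist_eq, sub_zero]
      exact (quot_le ht _ _ _ _).trans ((div_le_iff₀ (ht i)).2 hi)
  choose b hb using fun w => ulim U (k w)
  refine ⟨⟨b, memℓp_infty ⟨M, ?_⟩⟩, h, hb⟩
  rintro _ ⟨w, rfl⟩
  exact le_of_tendsto (hb w).norm ((k w).mono fun i hi => by simpa only [dist_zero_right] using hi)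

theorem Bd.lim {p q : I → X} (h : Bd U x t p) (h' : Bd U x t q) :
    ∃ σ, 0 ≤ σ ∧ Tendsto (fun i => dist (p i) (q i) / t i) U (𝓝 σ) := by
  obtain ⟨M, hM⟩ := h
  obtain ⟨M', hM'⟩ := h'
  obtain ⟨σ, hσ⟩ := ulim U (g := fun i => dist (p i) (q i) / t i) (c := 0) (r := M + M') (by
    filter_upwards [hM, hM'] with i a b
    rw [Real.dist_eq, sub_zero, abs_of_nonneg (div_nonneg dist_nonneg (ht i).le),
      div_le_iff₀ (ht i)]
    linarith [dist_triangle_right (p i) (q i) (x i)])
  exact ⟨σ, ge_of_tendsto' hσ fun i => div_nonneg dist_nonneg (ht i).le, hσ⟩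

theorem Rep.le {p q : I → X} {a b : lp (fun _ : X => ℝ) ∞} (h : Rep U x t p a)
    (h' : Rep U x t q b) {σ : ℝ} (h0 : 0 ≤ σ)
    (hσ : Tendsto (fun i => dist (p i) (q i) / t i) U (𝓝 σ)) : ‖b - a‖ ≤ σ := by
  refine lp.norm_le_of_forall_le h0 fun w => ?_
  refine le_of_tendsto_of_tendsto' ((h'.2 w).sub (h.2 w)).norm hσ fun i => ?_
  rw [← sub_div, sub_sub_sub_cancel_right, dist_comm (p i)]
  exact quot_le ht _ _ _ _

theorem Rep.congr {p q : I → X} {a : lp (fun _ : X => ℝ) ∞} (h : Rep U x t p a)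
    (hσ : Tendsto (fun i => dist (p i) (q i) / t i) U (𝓝 0)) : Rep U x t q a := by
  obtain ⟨M, hM⟩ := h.1
  obtain ⟨b, hb⟩ := Bd.rep ht (p := q) (U := U) (x := x) ⟨M + 1, by
    filter_upwards [hM, hσ.eventually (ge_mem_nhds one_pos)] with i a b
    rw [div_le_one (ht i)] at b
    linarith [dist_triangle_left (q i) (x i) (p i)]⟩
  rwa [← sub_eq_zero.1 (norm_le_zero_iff.1 (h.le ht hb le_rfl hσ))]

end

theorem Bd.tendsto {o : X} (hx : Tendsto x U (𝓝 o)) (h0 : Tendsto t U (𝓝 0)) {p : I → X}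
    (h : Bd U x t p) : Tendsto p U (𝓝 o) := by
  obtain ⟨M, hM⟩ := h
  refine hx.congr_dist (squeeze_zero' (Eventually.of_forall fun _ => dist_nonneg)
    (hM.mono fun i hi => (dist_comm _ _).trans_le hi) ?_)
  simpa using h0.const_mul M

theorem to_zero {g : I → ℝ} (h0 : ∀ i, 0 ≤ g i) (K : ℝ)
    (h : ∀ ε > 0, ∀ᶠ i in U, g i ≤ K * ε) : Tendsto g U (𝓝 0) := by
  refine tendsto_order.2 ⟨fun a ha => Eventually.of_forall fun i => ha.trans_le (h0 i),
    fun a ha => (h (a / (|K| + 1)) (by positivity)).mono fun i hi => hi.trans_lt ?_⟩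
  rw [← mul_div_assoc, div_lt_iff₀ (by positivity)]
  nlinarith [le_abs_self K]

namespace Ctl

variable [ProperSpace X] {o : X} {R C : ℝ} (H : Ctl o R C) (ht : ∀ i, 0 < t i)
  (hx : Tendsto x U (𝓝 o)) (h0 : Tendsto t U (𝓝 0))
include H ht hx h0

/-- Two points of the tangent lie on a flow line. -/
theorem dir {p q : I → X} (hp : Bd U x t p) (hq : Bd U x t q) {σ : ℝ} (σ0 : 0 < σ)
    (hσ : Tendsto (fun i => dist (p i) (q i) / t i) U (𝓝 σ)) :
    ∃ v, dist o v = R / 2 ∧
      Tendsto (fun i => dist (fl v (σ * t i) (p i)) (q i) / t i) U (𝓝 0) := by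
  have L := H.loc
  have hR := L.pos
  have p0 := hp.tendsto hx h0
  have p1 := p0.eventually (ball_mem_nhds o (show 0 < R / 8 by positivity))
  have q1 := (hq.tendsto hx h0).eventually (ball_mem_nhds o (show 0 < R / 8 by positivity))
  have b8 : ball o (R / 8) ⊆ ball o R := ball_subset_ball (by linarith)
  have ne : ∀ᶠ i in U, p i ≠ q i := (hσ.eventually (lt_mem_nhds σ0)).mono fun i hi h => by
    simp [h] at hi
  have e1 : ∀ᶠ i in U, dist (p i) (ray (p i) (q i) (R / 2)) = R / 2 := by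
    filter_upwards [p1, q1, ne] with i a b c
    exact (L.ray_spec (b8 a) (b8 b) c (by linarith) (by linarith)).1
  have e2 : ∀ᶠ i in U, dist (ray (p i) (q i) (R / 2)) o ≤ 5 * R / 8 := by
    filter_upwards [p1, e1] with i a b
    linarith [dist_triangle_left (ray (p i) (q i) (R / 2)) o (p i), mem_ball.1 a]
  obtain ⟨v, hv⟩ := ulim U e2
  have hov : dist o v = R / 2 :=
    tendsto_nhds_unique (p0.dist hv) (tendsto_const_nhds.congr' (e1.mono fun i h => h.symm))
  refine ⟨v, hov, to_zero (fun i => div_nonneg dist_nonneg (ht i).le) (σ + 2) fun η hη => ?_⟩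
  obtain ⟨δ, hδ, h⟩ := H.cmp hη
  have z : Tendsto (fun i => σ * t i) U (𝓝 0) := by simpa using h0.const_mul σ
  filter_upwards [p1, q1, ne, e1, e2, hv.eventually (closedBall_mem_nhds v hδ),
    hσ.eventually (closedBall_mem_nhds σ (lt_min hη one_pos)),
    z.eventually (ge_mem_nhds (show 0 < R / 8 by positivity))] with i a b c d e f g k
  obtain ⟨a1, a2, a3, a4, a5⟩ := H.far hov a
  have t0 := ht i
  have s1 : dist (p i) (q i) ≤ R / 4 := by
    linarith [dist_triangle_right (p i) (q i) o, mem_ball.1 a, mem_ball.1 b]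
  have w1 : ray (p i) (q i) (R / 2) ∈ ball o R := mem_ball.2 (by linarith)
  have c1 := h _ a2 _ w1 v a1 (by linarith) (by rw [dist_comm]; linarith) f _ dist_nonneg s1
  rw [L.ray_ray a2 (b8 b) c (by linarith) (by linarith) dist_nonneg (by linarith) w1,
    Loc.ray_self c] at c1
  have c2 := L.dist_ray a2 a1 a3.symm (t := σ * t i) (t' := dist (p i) (q i)) (by positivity)
    (by linarith) dist_nonneg (by linarith)
  rw [L.flip a2 a1 a3 (by positivity) (by linarith), div_le_iff₀ t0]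
  obtain ⟨s, hs⟩ : ∃ s, dist (p i) (q i) = s * t i := ⟨_, (div_mul_cancel₀ _ t0.ne').symm⟩
  rw [hs] at c1 c2 g
  rw [mul_div_cancel_right₀ _ t0.ne', Real.dist_eq, le_min_iff] at g
  rw [← sub_mul, abs_mul, abs_of_pos t0, abs_sub_comm] at c2
  have c3 := mul_le_mul_of_nonneg_right g.1 t0.le
  have c4 := mul_le_mul_of_nonneg_right (abs_le.1 g.2).2 (mul_pos hη t0).le
  linarith [dist_triangle_right (ray (p i) v (σ * t i)) (q i) (ray (p i) v (s * t i))]

variable (hG : ∀ v, dist o v = R / 2 → ∀ w M ε, 0 < ε →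
  ∀ᶠ i in U, Good (fl v) (dist w) (x i) (t i) M ε)
include hG

/-- The flows act on the tangent by translations. -/
theorem lin {v : X} (hv : dist o v = R / 2) : ∃ a : lp (fun _ : X => ℝ) ∞, a v = -1 ∧
    ∀ p b σ, 0 ≤ σ → Rep U x t p b → Rep U x t (fun i => fl v (σ * t i) (p i)) (b + σ • a) := by
  have hR := H.loc.pos
  have ev : ∀ p σ, 0 ≤ σ → Bd U x t p → ∀ᶠ i in U,
      dist v (fl v (σ * t i) (p i)) = dist v (p i) - σ * t i ∧
        dist (p i) (fl v (σ * t i) (p i)) = σ * t i := fun p σ s0 hp => by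
    have z : Tendsto (fun i => σ * t i) U (𝓝 0) := by simpa using h0.const_mul σ
    filter_upwards [(hp.tendsto hx h0).eventually (ball_mem_nhds o (show 0 < R / 8 by positivity)),
      z.eventually (ge_mem_nhds (show 0 < R / 8 by positivity))] with i a b
    have e := abs_of_nonneg (mul_nonneg s0 (ht i).le)
    have := H.fl_spec hv a (e.trans_le b)
    rwa [e] at this
  have bd : ∀ p σ, 0 ≤ σ → Bd U x t p → Bd U x t fun i => fl v (σ * t i) (p i) :=
    fun p σ s0 hp => by
      obtain ⟨M, hM⟩ := id hp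
      refine ⟨M + σ, ?_⟩
      filter_upwards [hM, ev p σ s0 hp] with i a b
      linarith [dist_triangle_left (fl v (σ * t i) (p i)) (x i) (p i), b.2]
  obtain ⟨a, ha⟩ := (bd x 1 zero_le_one rep_zero.1).rep ht
  refine ⟨a, tendsto_nhds_unique (ha.2 v) (tendsto_const_nhds.congr' ?_),
    fun p b σ s0 hb => ⟨bd p σ s0 hb.1, fun w => ?_⟩⟩
  · filter_upwards [ev x 1 zero_le_one rep_zero.1] with i h
    rw [h.1, one_mul, sub_sub_cancel_left, neg_div, div_self (ht i).ne']
  · refine ((hb.2 w).add ((ha.2 w).const_mul σ)).congr_dist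
      (to_zero (fun _ => dist_nonneg) (1 + σ) fun ε hε => ?_)
    obtain ⟨M, hM⟩ := hb.1
    filter_upwards [hM, hG v hv w (max M (σ + 1)) ε hε] with i a1 ⟨c, hc⟩
    have t0 := ht i
    have m1 := mul_le_mul_of_nonneg_right (le_max_left M (σ + 1)) t0.le
    have m2 := mul_le_mul_of_nonneg_right (le_max_right M (σ + 1)) t0.le
    have m3 := mul_nonneg s0 t0.le
    have c1 := abs_le.1 (hc (p i) (a1.trans m1) (σ * t i) m3 (by linarith))
    have c2 := abs_le.1 (hc (x i) (by rw [dist_self]; linarith) (1 * t i) (by linarith)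
      (by linarith))
    have c3 := mul_le_mul_of_nonneg_left c2.1 s0
    have c4 := mul_le_mul_of_nonneg_left c2.2 s0
    rw [Real.dist_eq, ← mul_div_assoc, ← add_div, ← sub_div, abs_div, abs_of_pos t0,
      div_le_iff₀ t0, abs_le]
    constructor <;> linarith [c1.1, c1.2]

theorem key {p q : I → X} {a b : lp (fun _ : X => ℝ) ∞} (hp : Rep U x t p a)
    (hq : Rep U x t q b) : Tendsto (fun i => dist (p i) (q i) / t i) U (𝓝 ‖b - a‖) ∧
      ∀ l : ℝ, 0 ≤ l → ∀ r c, Rep U x t r c → ∃ r', Rep U x t r' (c + l • (b - a)) := by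
  obtain ⟨σ, s0, hσ⟩ := Bd.lim ht hp.1 hq.1
  have hle := hp.le ht hq s0 hσ
  rcases s0.eq_or_lt with rfl | s1
  · rw [norm_le_zero_iff.1 hle, norm_zero]
    exact ⟨hσ, fun l _ r c h => ⟨r, by rwa [smul_zero, add_zero]⟩⟩
  · obtain ⟨v, hv, h⟩ := H.dir ht hx h0 hp.1 hq.1 s1 hσ
    obtain ⟨e, e1, e2⟩ := H.lin ht hx h0 hG hv
    have e3 : b - a = σ • e := by
      rw [hq.unique ((e2 p a σ s0 hp).congr ht h), add_sub_cancel_left]
    have e4 := lp.norm_apply_le_norm ENNReal.top_ne_zero (b - a) v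
    rw [show (b - a) v = σ * e v by rw [e3]; rfl, e1, mul_neg, mul_one, norm_neg,
      Real.norm_of_nonneg s0] at e4
    rw [le_antisymm hle e4]
    exact ⟨hσ, fun l l0 r c hc => ⟨_, by
      rw [e3, smul_smul]; exact e2 r c _ (mul_nonneg l0 s0) hc⟩⟩

theorem chart_aux :
    ∃ (m : ℕ) (e : OpenPartialHomeomorph X (EuclideanSpace ℝ (Fin m))), o ∈ e.source := by
  have L := H.loc
  have hR := L.pos
  have K := fun {p q a b} => H.key ht hx h0 hG (p := p) (q := q) (a := a) (b := b)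
  let A : Submodule ℝ (lp (fun _ : X => ℝ) ∞) :=
    { carrier := {b | ∃ p, Rep U x t p b}
      zero_mem' := ⟨x, rep_zero⟩
      add_mem' := fun ⟨p, hp⟩ ⟨q, hq⟩ => by
        simpa using (K rep_zero hq).2 1 zero_le_one p _ hp
      smul_mem' := fun c b ⟨q, hq⟩ => by
        rcases le_total 0 c with h | h
        · simpa using (K rep_zero hq).2 c h x _ rep_zero
        · simpa using (K hq rep_zero).2 (-c) (neg_nonneg.2 h) x _ rep_zero }
  have x1 := hx.eventually (ball_mem_nhds o hR)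
  have t1 := h0.eventually (ge_mem_nhds one_pos)
  have g1 : ∀ y ∈ ball o R, ∀ᶠ i in U, dist (x i) (geo (x i) y (t i)) = t i * dist (x i) y :=
    fun y hy => by
      filter_upwards [x1, t1] with i a b
      exact (L.geo_spec2 a hy (ht i).le (by linarith)).1
  have ex : ∀ y, ∃ b : A, y ∈ ball o R → Rep U x t (fun i => geo (x i) y (t i)) b := fun y => by
    by_cases hy : y ∈ ball o R
    · obtain ⟨b, hb⟩ := Bd.rep ht (U := U) (x := x) (p := fun i => geo (x i) y (t i)) ⟨2 * R, by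
        filter_upwards [x1, g1 y hy] with i a b
        rw [dist_comm, b, mul_comm]
        exact mul_le_mul_of_nonneg_right (L.dist_lt a hy).le (ht i).le⟩
      exact ⟨⟨b, _, hb⟩, fun _ => hb⟩
    · exact ⟨0, fun h => absurd h hy⟩
  choose F hF using ex
  have d1 : ∀ y ∈ ball o R, ∀ z ∈ ball o R, Tendsto
      (fun i => dist (geo (x i) y (t i)) (geo (x i) z (t i)) / t i) U (𝓝 (dist (F y) (F z))) :=
    fun y hy z hz => by
      rw [dist_comm (F y), dist_eq_norm]
      exact (K (hF y hy) (hF z hz)).1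
  refine chart_of hR F (fun ε hε => ?_) (fun δ hδ => ?_) (fun y hy => ?_) ?_
  · obtain ⟨δ, hδ, h⟩ := H.up ε hε
    refine ⟨δ, hδ, fun y hy z hz hd => le_of_tendsto (d1 y hy z hz) ?_⟩
    filter_upwards [x1, t1] with i a b
    exact (div_le_iff₀ (ht i)).2 (h _ a y hy z hz _ (ht i).le b hd)
  · obtain ⟨c, hc, h⟩ := H.low δ hδ
    refine ⟨c, hc, fun y hy z hz hd => ge_of_tendsto (d1 y hy z hz) ?_⟩
    filter_upwards [x1, t1] with i a b
    exact (le_div_iff₀ (ht i)).2 (h _ a y hy z hz _ (ht i).le b hd)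
  · have := (K rep_zero (hF y hy)).1
    rw [sub_zero] at this
    refine tendsto_nhds_unique this ((hx.dist tendsto_const_nhds).congr' ?_)
    filter_upwards [g1 y hy] with i h
    rw [h, mul_div_cancel_left₀ _ (ht i).ne']
  · rintro ⟨b, p, hp⟩ hb
    have k := (K rep_zero hp).1
    rw [sub_zero] at k
    have k1 := (tendsto_iff_dist_tendsto_zero.1 hx).add k
    rw [zero_add] at k1
    have : Nonempty X := ⟨o⟩
    obtain ⟨y, hy⟩ : ∃ y : I → X, ∀ᶠ i in U, y i ∈ ball o R ∧
        dist (x i) (y i) = dist (x i) (p i) / t i ∧ geo (x i) (y i) (t i) = p i := by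
      refine Eventually.choice (r := fun i y => y ∈ ball o R ∧
        dist (x i) y = dist (x i) (p i) / t i ∧ geo (x i) y (t i) = p i) ?_
      filter_upwards [x1, t1, (hp.1.tendsto hx h0).eventually (ball_mem_nhds o hR),
        k1.eventually (gt_mem_nhds hb)] with i a1 a2 a3 a4
      exact L.geo_inv a1 a3 (ht i) a2 a4
    obtain ⟨z, hz⟩ := ulim U (hy.mono fun i h => (mem_ball.1 h.1).le)
    have hoz : z ∈ ball o R := by
      rw [mem_ball', tendsto_nhds_unique (hx.dist hz) (k.congr' (hy.mono fun i h => h.2.1.symm))]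
      exact hb
    refine ⟨z, hoz, Subtype.ext ((hF z hoz).unique (hp.congr ht
      (to_zero (fun i => div_nonneg dist_nonneg (ht i).le) 1 fun ε hε => ?_)))⟩
    obtain ⟨δ, hδ, h⟩ := H.up ε hε
    filter_upwards [x1, t1, hy, hz.eventually (closedBall_mem_nhds z hδ)] with i a1 a2 a3 a4
    rw [one_mul, div_le_iff₀ (ht i), ← a3.2.2]
    exact h _ a1 _ a3.1 z hoz _ (ht i).le a2 a4

end Ctl

theorem Ctl.chart [ProperSpace X] {o : X} {R C : ℝ} (H : Ctl o R C) :
    ∃ (m : ℕ) (e : OpenPartialHomeomorph X (EuclideanSpace ℝ (Fin m))), o ∈ e.source := by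
  have hR := H.loc.pos
  have hD : Dbl o (R / 8) := fun κ hκ => by
    obtain ⟨N, hN⟩ := H.dbl κ hκ
    exact ⟨N, fun x hx r a b => hN x (ball_subset_ball (by linarith) hx) r a (by linarith)⟩
  obtain ⟨U, x, t, h1, h2, h3, h4⟩ := exists_ultra (ι := {v // dist o v = R / 2} × X)
    (φ := fun j => fl j.1.1) (f := fun j => dist j.2) (fun j => H.flow j.1.2)
    (fun j p q => by rw [dist_comm j.2, dist_comm j.2]; exact abs_dist_sub_le _ _ _)
    (by linarith [H.one_le]) (by positivity) hD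
  exact H.chart_aux h1 h2 h3 fun v hv w => h4 (⟨v, hv⟩, w)

end Pool.Agent.P.MP_07c576_gt.Ql
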