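import Pool.Agent.P.MP_07c576_gt.Ql.Defs
import Pool.Agent.P.MP_07c576_gt.Ql.Lim

/-! A G-space with one manifold point is a manifold. -/

namespace Pool.Agent.P.MP_07c576_gt.Ql

open Set Metric Topology Filter

variable {X : Type} [MetricSpace X] [ProperSpace X]

theorem Loc.div {o : X} {R : ℝ} (L : Loc o R) {x y : X} (hx : x ∈ ball o R) (hy : y ∈ ball o R)
    {t : ℝ} (h0 : 0 ≤ t) (h1 : t ≤ 1) : Div x y t (geo x y t) := by
  obtain ⟨a, b⟩ := L.geo_spec2 hx hy h0 (by linarith)
  exact ⟨h0, h1, a, by rw [dist_comm, b, abs_of_nonneg (by linarith)]⟩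

theorem Loc.geo_geo {o : X} {R : ℝ} (L : Loc o R) {x y : X} (hx : x ∈ ball o R)
    (hy : y ∈ ball o R) {s : ℝ} (h0 : 0 < s) (h1 : s ≤ 2) (hz : geo x y s ∈ ball o R) :
    geo x (geo x y s) (1 / s) = y := by
  obtain ⟨a, b⟩ := L.geo_spec2 hx hy h0.le h1
  have hg : Geo x (geo x y s) (1 / s) y := ⟨by rw [a]; field_simp, by
    rw [dist_comm, a, b, ← mul_assoc]
    congr 1
    rw [show 1 - 1 / s = (s - 1) / s by field_simp, abs_div, abs_of_pos h0, abs_sub_comm,
      div_mul_cancel₀ _ h0.ne']⟩
  exact L.geo_unique hx hz (geo_of_exists ⟨y, hg⟩) hg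

/-- A point close to `p` is moved to `p` by a local homeomorphism. -/
theorem Loc.move {p : X} {R : ℝ} (L : Loc p R) {s : X} (hs : s ∈ ball p (R / 2)) :
    ∃ e : OpenPartialHomeomorph X X, p ∈ e.source ∧ e p = s := by
  have hR := L.pos
  by_cases h : s = p
  · exact ⟨OpenPartialHomeomorph.refl X, mem_univ _, h.symm⟩
  have hp : p ∈ ball p R := mem_ball_self hR
  have s1 := mem_ball.1 hs
  have s2 : s ∈ ball p R := mem_ball.2 (by linarith)
  obtain ⟨b, b1, b2⟩ := L.long s2 hp h (t := R / 2) (by linarith) (by linarith)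
  have hb : b ∈ ball p R := mem_ball'.2 (by linarith)
  have d0 : 0 ≤ dist s p := dist_nonneg
  set l := dist s b / (R / 2) with hl
  have l1 : 1 ≤ l := (one_le_div (by linarith)).2 (by linarith)
  have l2 : l ≤ 2 := (div_le_iff₀ (by linarith)).2 (by linarith)
  have l3 : 1 / l ≤ 2 := (div_le_iff₀ (by linarith)).2 (by linarith)
  have l4 : 0 < 1 / l := by positivity
  have c : ∀ a : ℝ, 0 < a → a ≤ 2 → ContinuousOn (fun y => geo b y a) (ball p R) := fun a a0 a1 =>
    L.continuous_geo continuousOn_const continuousOn_id continuousOn_const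
      fun y hy => ⟨hb, hy, a0.le, a1⟩
  have e1 : geo b p l = s := by
    have hg : Geo b p l s := ⟨by rw [dist_comm b p, b1, hl, dist_comm]; field_simp, by
      rw [abs_of_nonpos (by linarith), dist_comm b p, b1, hl, ← b2, b1, dist_comm]
      field_simp
      ring⟩
    exact L.geo_unique hb hp (geo_of_exists ⟨s, hg⟩) hg
  have i1 : ∀ y ∈ ball p R ∩ (fun y => geo b y l) ⁻¹' ball p R,
      geo b (geo b y l) (1 / l) = y := fun y hy => L.geo_geo hb hy.1 (by linarith) l2 hy.2
  have i2 : ∀ y ∈ ball p R ∩ (fun y => geo b y (1 / l)) ⁻¹' ball p R,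
      geo b (geo b y (1 / l)) l = y := fun y hy => by
    have := L.geo_geo hb hy.1 l4 l3 hy.2
    rwa [one_div_one_div] at this
  exact ⟨{ toFun := fun y => geo b y l
           invFun := fun y => geo b y (1 / l)
           source := ball p R ∩ (fun y => geo b y l) ⁻¹' ball p R
           target := ball p R ∩ (fun y => geo b y (1 / l)) ⁻¹' ball p R
           map_source' := fun y hy => ⟨hy.2, by
             rw [mem_preimage, i1 y hy]; exact hy.1⟩
           map_target' := fun y hy => ⟨hy.2, by
             rw [mem_preimage, i2 y hy]; exact hy.1⟩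
           left_inv' := i1
           right_inv' := i2
           open_source := (c l (by linarith) l2).isOpen_inter_preimage isOpen_ball isOpen_ball
           open_target := (c _ l4 l3).isOpen_inter_preimage isOpen_ball isOpen_ball
           continuousOn_toFun := (c l (by linarith) l2).mono inter_subset_left
           continuousOn_invFun := (c _ l4 l3).mono inter_subset_left },
    ⟨hp, by rw [mem_preimage, e1]; exact s2⟩, e1⟩

theorem charted {E : Type} [TopologicalSpace E] (hL : ∀ p : X, ∃ R, Loc p R) {o : X}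
    (h : ∃ e : OpenPartialHomeomorph X E, o ∈ e.source) : Nonempty (ChartedSpace E X) := by
  set S := {p : X | ∃ e : OpenPartialHomeomorph X E, p ∈ e.source} with hS
  have hO : IsOpen S := isOpen_iff_mem_nhds.2 fun p ⟨e, he⟩ =>
    mem_of_superset (e.open_source.mem_nhds he) fun q hq => ⟨e, hq⟩
  have all : ∀ p, p ∈ S := by
    by_contra hc
    push Not at hc
    obtain ⟨q, hq, hd⟩ := hO.isClosed_compl.exists_infDist_eq_dist hc o
    obtain ⟨R, L⟩ := hL q
    have hR := L.pos
    have d0 : 0 < dist o q := dist_pos.2 fun e => hq (e ▸ h)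
    have m0 : 0 < min (dist o q) (R / 4) := lt_min d0 (by positivity)
    obtain ⟨s, s1, s2⟩ := L.btw o q (t := dist o q - min (dist o q) (R / 4))
      (sub_nonneg.2 (min_le_left _ _)) (by linarith)
    obtain ⟨e, he⟩ : s ∈ S := by_contra fun hs => by
      have := infDist_le_dist_of_mem (x := o) (show s ∈ Sᶜ from hs)
      linarith
    obtain ⟨f, f1, f2⟩ := L.move (s := s)
      (mem_ball.2 (by linarith [min_le_right (dist o q) (R / 4)]))
    exact hq ⟨f.trans e, f1, show f q ∈ e.source from f2 ▸ he⟩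
  choose e he using all
  exact ⟨⟨range e, e, he, fun p => mem_range_self p⟩⟩

end Pool.Agent.P.MP_07c576_gt.Ql
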